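import Mathlib
import Pool.Agent.H37.CG.Step3

/-!
# MP_5c3080_gt, part (3) (not F* from a Model): definitions

`GPr ρ`: the equivariant lifting property of an `R`-linear representation. `CoI φ ρ`, `TT φ ρ`: the
`φ`-coinvariants. `GC Γ R`: a complex of representations with an augmentation to `R`; `GC.Ex` exact,
`GC.Pr` all terms have the lifting property, `GC.T φ` the complex of the coinvariants.
-/

set_option autoImplicit false

namespace Pool.Agent.H37.NF

open Pool.Agent.H4.CU (Cx Hr Fam EulerFn Good)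
open Pool.Agent.H37.CG (Tf Of)

noncomputable section

/-- the equivariant lifting property -/
def GPr {Γ R : Type} [Group Γ] [CommRing R] {M : Type} [AddCommGroup M] [Module R M]
    (ρ : Representation R Γ M) : Prop :=
  ∀ (A B : Type) [AddCommGroup A] [Module R A] [AddCommGroup B] [Module R B]
    (α : Representation R Γ A) (β : Representation R Γ B) (p : A →ₗ[R] B) (f : M →ₗ[R] B),
    (∀ g x, p (α g x) = β g (p x)) → (∀ g x, f (ρ g x) = β g (f x)) → (∀ x, ∃ y, p y = f x) →
    ∃ f' : M →ₗ[R] A, (∀ g x, f' (ρ g x) = α g (f' x)) ∧ ∀ x, p (f' x) = f x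

/-- the relations `g b = φ(g) b` -/
def CoI {Γ R : Type} [Group Γ] [CommRing R] (φ : Γ →* R) {M : Type} [AddCommGroup M] [Module R M]
    (ρ : Representation R Γ M) : Submodule R M :=
  Submodule.span R {c | ∃ (g : Γ) (b : M), c = ρ g b - φ g • b}

/-- the `φ`-coinvariants -/
abbrev TT {Γ R : Type} [Group Γ] [CommRing R] (φ : Γ →* R) {M : Type} [AddCommGroup M] [Module R M]
    (ρ : Representation R Γ M) : Type := M ⧸ CoI φ ρ

/-- the map of the coinvariants induced by an equivariant map -/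
def tmap {Γ R : Type} [Group Γ] [CommRing R] (φ : Γ →* R) {M M' : Type} [AddCommGroup M]
    [Module R M] [AddCommGroup M'] [Module R M'] (ρ : Representation R Γ M)
    (ρ' : Representation R Γ M') (f : M →ₗ[R] M') (hf : ∀ g x, f (ρ g x) = ρ' g (f x)) :
    TT φ ρ →ₗ[R] TT φ ρ' :=
  Submodule.mapQ _ _ f (by
    unfold CoI
    rw [Submodule.span_le]
    rintro c ⟨g, b, rfl⟩
    rw [SetLike.mem_coe, Submodule.mem_comap, map_sub, map_smul, hf]
    exact Submodule.subset_span ⟨g, f b, rfl⟩)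

theorem tmap_mk {Γ R : Type} [Group Γ] [CommRing R] (φ : Γ →* R) {M M' : Type} [AddCommGroup M]
    [Module R M] [AddCommGroup M'] [Module R M'] (ρ : Representation R Γ M)
    (ρ' : Representation R Γ M') (f : M →ₗ[R] M') (hf : ∀ g x, f (ρ g x) = ρ' g (f x)) (x : M) :
    tmap φ ρ ρ' f hf (Submodule.Quotient.mk x) = Submodule.Quotient.mk (f x) := rfl

/-- a complex of representations with an augmentation -/
structure GC (Γ R : Type) [Group Γ] [CommRing R] where
  K : Cx R
  ρ : ∀ n, Representation R Γ (K.M n)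
  eq : ∀ n g x, K.d n (ρ (n + 1) g x) = ρ n g (K.d n x)
  ε : K.M 0 →ₗ[R] R
  ε_eq : ∀ g x, ε (ρ 0 g x) = ε x
  ε_d : ∀ x, ε (K.d 0 x) = 0

/-- exact: a resolution of the trivial module `R` -/
def GC.Ex {Γ R : Type} [Group Γ] [CommRing R] (C : GC Γ R) : Prop :=
  (∃ x, C.ε x = 1) ∧ (∀ x, C.ε x = 0 → ∃ y, C.K.d 0 y = x) ∧
    ∀ n x, C.K.d n x = 0 → ∃ y, C.K.d (n + 1) y = x

/-- all terms have the lifting property -/
def GC.Pr {Γ R : Type} [Group Γ] [CommRing R] (C : GC Γ R) : Prop := ∀ n, GPr (C.ρ n)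

/-- the complex of the coinvariants -/
def GC.T {Γ R : Type} [Group Γ] [CommRing R] (C : GC Γ R) (φ : Γ →* R) : Cx R where
  M n := TT φ (C.ρ n)
  d n := tmap φ (C.ρ (n + 1)) (C.ρ n) (C.K.d n) (C.eq n)
  dd n x := by
    obtain ⟨x, rfl⟩ := Submodule.Quotient.mk_surjective _ x
    rw [tmap_mk, tmap_mk, C.K.dd, Submodule.Quotient.mk_zero]

end

end Pool.Agent.H37.NF
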