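import Mathlib
import Pool.Agent.H37.NF.Defs

/-!
# MP_5c3080_gt, part (3): permutation modules have the lifting property
-/

set_option autoImplicit false

namespace Pool.Agent.H37.NF

noncomputable section

variable {Γ R : Type} [Group Γ] [CommRing R]

/-- the permutation representation -/
def permR (Γ R X : Type) [Group Γ] [CommRing R] [MulAction Γ X] : Representation R Γ (X →₀ R) where
  toFun g := Finsupp.lmapDomain R R (fun x => g • x)
  map_one' := by
    ext x
    simp
  map_mul' g h := by
    ext x
    simp [mul_smul]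

theorem permR_single {X : Type} [MulAction Γ X] (g : Γ) (x : X) (a : R) :
    permR Γ R X g (Finsupp.single x a) = Finsupp.single (g • x) a := by
  simp [permR]

theorem permR_apply {X : Type} [MulAction Γ X] (g : Γ) (f : X →₀ R) :
    permR Γ R X g f = Finsupp.mapDomain (fun x => g • x) f := rfl

/-- averaging over a finite subgroup -/
theorem exists_avg {A : Type} [AddCommGroup A] [Module R A] (α : Representation R Γ A)
    (F : Subgroup Γ) [Finite F] (hF : IsUnit ((Nat.card F : ℕ) : R)) (a : A) {B : Type}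
    [AddCommGroup B] [Module R B] (β : Representation R Γ B) (p : A →ₗ[R] B)
    (hp : ∀ g x, p (α g x) = β g (p x)) (hb : ∀ h ∈ F, β h (p a) = p a) :
    ∃ a', p a' = p a ∧ ∀ h ∈ F, α h a' = a' := by
  have : Fintype F := Fintype.ofFinite F
  obtain ⟨u, hu⟩ := hF
  refine ⟨((u⁻¹ : Rˣ) : R) • ∑ h : F, α h a, ?_, ?_⟩
  · rw [map_smul, map_sum]
    have h1 : ∀ h : F, p (α h a) = p a := fun h => by rw [hp, hb h h.2]
    simp only [h1]
    rw [Finset.sum_const, Finset.card_univ, ← Nat.card_eq_fintype_card, ← Nat.cast_smul_eq_nsmul R,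
      ← hu, smul_smul, Units.inv_mul, one_smul]
  · intro h hh
    rw [map_smul, map_sum]
    congr 1
    have h1 : ∀ x : F, α h (α x a) = α (((⟨h, hh⟩ : F) * x : F) : Γ) a := fun x => by
      rw [Subgroup.coe_mul, map_mul]
      rfl
    simp only [h1]
    exact Fintype.sum_equiv (Equiv.mulLeft (⟨h, hh⟩ : F)) _ _ (fun x => rfl)

theorem gpr_perm (X : Type) [MulAction Γ X] (hfin : ∀ x : X, Finite (MulAction.stabilizer Γ x))
    (hinv : ∀ x : X, IsUnit ((Nat.card (MulAction.stabilizer Γ x) : ℕ) : R)) :
    GPr (permR Γ R X) := by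
  intro A B _ _ _ _ α β p f hp hf hpf
  -- representatives
  let O := MulAction.orbitRel.Quotient Γ X
  have hrep : ∀ x : X, ∃ g : Γ, x = g • (Quotient.mk (MulAction.orbitRel Γ X) x).out := by
    intro x
    have h1 : (MulAction.orbitRel Γ X).r (Quotient.mk (MulAction.orbitRel Γ X) x).out x :=
      Quotient.mk_out (s := MulAction.orbitRel Γ X) x
    have h2 := (MulAction.orbitRel Γ X).symm h1
    obtain ⟨g, hg⟩ := h2
    exact ⟨g, hg.symm⟩
  choose gx hgx using hrep
  have hb : ∀ r : X, ∃ a : A, p a = f (Finsupp.single r 1) ∧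
      ∀ h ∈ MulAction.stabilizer Γ r, α h a = a := by
    intro r
    obtain ⟨a, ha⟩ := hpf (Finsupp.single r 1)
    have := hfin r
    obtain ⟨a', h1, h2⟩ := exists_avg α (MulAction.stabilizer Γ r) (hinv r) a β p hp (by
      intro h hh
      rw [ha, ← hf, permR_single, MulAction.mem_stabilizer_iff.mp hh])
    exact ⟨a', by rw [h1, ha], h2⟩
  choose b hb1 hb2 using hb
  let F : X → A := fun x => α (gx x) (b (Quotient.mk (MulAction.orbitRel Γ X) x).out)
  have hF : ∀ (g : Γ) (x : X), F (g • x) = α g (F x) := by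
    intro g x
    have hq : (Quotient.mk (MulAction.orbitRel Γ X) (g • x)) =
        Quotient.mk (MulAction.orbitRel Γ X) x := Quotient.sound ⟨g, rfl⟩
    have h1 := hgx (g • x)
    have h2 := hgx x
    simp only [F]
    rw [hq] at h1 ⊢
    set r := (Quotient.mk (MulAction.orbitRel Γ X) x).out with hr
    have h3 : (gx (g • x))⁻¹ * (g * gx x) ∈ MulAction.stabilizer Γ r := by
      rw [MulAction.mem_stabilizer_iff, mul_smul, mul_smul, ← h2, inv_smul_eq_iff]
      exact h1
    have h4 := hb2 r _ h3
    have h5 := congrArg (α (gx (g • x))) h4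
    rw [← Module.End.mul_apply, ← map_mul, mul_inv_cancel_left, map_mul,
      Module.End.mul_apply] at h5
    exact h5.symm
  refine ⟨Finsupp.lift A R X F, ?_, ?_⟩
  · intro g x
    induction x using Finsupp.induction_linear with
    | zero => simp
    | add u v hu hv => rw [map_add, map_add, hu, hv, map_add, map_add]
    | single x a =>
      rw [permR_single, Finsupp.lift_apply, Finsupp.lift_apply, Finsupp.sum_single_index (by simp),
        Finsupp.sum_single_index (by simp), hF, map_smul]
  · intro x
    induction x using Finsupp.induction_linear with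
    | zero => simp
    | add u v hu hv => rw [map_add, map_add, hu, hv, map_add]
    | single x a =>
      rw [Finsupp.lift_apply, Finsupp.sum_single_index (by simp), map_smul]
      simp only [F]
      rw [hp, hb1, ← hf, permR_single, ← hgx x, ← map_smul, Finsupp.smul_single, smul_eq_mul,
        mul_one]

/-- retracts -/
theorem gpr_retract {M M' : Type} [AddCommGroup M] [Module R M] [AddCommGroup M'] [Module R M']
    (ρ : Representation R Γ M) (ρ' : Representation R Γ M') (i : M' →ₗ[R] M) (q : M →ₗ[R] M')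
    (hi : ∀ g x, i (ρ' g x) = ρ g (i x)) (hq : ∀ g x, q (ρ g x) = ρ' g (q x))
    (hqi : ∀ x, q (i x) = x) (h : GPr ρ) : GPr ρ' := by
  intro A B _ _ _ _ α β p f hp hf hpf
  obtain ⟨f', h1, h2⟩ := h A B α β p (f ∘ₗ q) hp
    (fun g x => by rw [LinearMap.comp_apply, hq, hf]; rfl) (fun x => hpf (q x))
  refine ⟨f' ∘ₗ i, fun g x => ?_, fun x => ?_⟩
  · rw [LinearMap.comp_apply, hi, h1]
    rfl
  · rw [LinearMap.comp_apply, h2, LinearMap.comp_apply, hqi]

/-- products -/
theorem gpr_prod {M M' : Type} [AddCommGroup M] [Module R M] [AddCommGroup M'] [Module R M']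
    (ρ : Representation R Γ M) (ρ' : Representation R Γ M') (h : GPr ρ) (h' : GPr ρ') :
    GPr (ρ.prod ρ') := by
  intro A B _ _ _ _ α β p f hp hf hpf
  obtain ⟨f1, h1, h2⟩ := h A B α β p (f ∘ₗ LinearMap.inl R M M') hp
    (fun g x => by
      rw [LinearMap.comp_apply, LinearMap.comp_apply, ← hf]
      congr 1
      ext <;> simp) (fun x => hpf _)
  obtain ⟨f2, h3, h4⟩ := h' A B α β p (f ∘ₗ LinearMap.inr R M M') hp
    (fun g x => by
      rw [LinearMap.comp_apply, LinearMap.comp_apply, ← hf]
      congr 1
      ext <;> simp) (fun x => hpf _)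
  refine ⟨f1.coprod f2, fun g x => ?_, fun x => ?_⟩
  · rw [LinearMap.coprod_apply, LinearMap.coprod_apply, map_add, ← h1, ← h3]
    rfl
  · rw [LinearMap.coprod_apply, map_add, h2, h4, LinearMap.comp_apply, LinearMap.comp_apply,
      ← map_add]
    congr 1
    simp

/-- the zero module -/
theorem gpr_subsingleton {M : Type} [AddCommGroup M] [Module R M] [Subsingleton M]
    (ρ : Representation R Γ M) : GPr ρ := by
  intro A B _ _ _ _ α β p f _ _ _
  refine ⟨0, fun g x => by simp, fun x => ?_⟩
  rw [Subsingleton.elim x 0]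
  simp

end

end Pool.Agent.H37.NF
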