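import Mathlib
import Pool.Agent.H37.NF.Perm

/-!
# MP_5c3080_gt, part (3): coinvariants of permutation modules, of products and of retracts
-/

set_option autoImplicit false

namespace Pool.Agent.H37.NF

noncomputable section

variable {Γ R : Type} [Group Γ] [CommRing R] (φ : Γ →* R)

theorem mk_act {M : Type} [AddCommGroup M] [Module R M] (ρ : Representation R Γ M) (g : Γ) (x : M) :
    (Submodule.Quotient.mk (ρ g x) : TT φ ρ) = φ g • Submodule.Quotient.mk x := by
  rw [← Submodule.Quotient.mk_smul, Submodule.Quotient.eq]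
  exact Submodule.subset_span ⟨g, x, rfl⟩

/-- linear maps out of the coinvariants -/
def tlift {M N : Type} [AddCommGroup M] [Module R M] [AddCommGroup N] [Module R N]
    (ρ : Representation R Γ M) (f : M →ₗ[R] N) (hf : ∀ g x, f (ρ g x) = φ g • f x) :
    TT φ ρ →ₗ[R] N :=
  Submodule.liftQ _ f (by
    unfold CoI
    rw [Submodule.span_le]
    rintro c ⟨g, b, rfl⟩
    rw [SetLike.mem_coe, LinearMap.mem_ker, map_sub, map_smul, hf, sub_self])

theorem tlift_mk {M N : Type} [AddCommGroup M] [Module R M] [AddCommGroup N] [Module R N]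
    (ρ : Representation R Γ M) (f : M →ₗ[R] N) (hf : ∀ g x, f (ρ g x) = φ g • f x) (x : M) :
    tlift φ ρ f hf (Submodule.Quotient.mk x) = f x := rfl

theorem coinv_perm (X : Type) [MulAction Γ X] (s : Finset X)
    (hs : ∀ x : X, ∃ g : Γ, ∃ y ∈ s, x = g • y)
    (hst : ∀ x : X, (∀ g ∈ MulAction.stabilizer Γ x, g = 1) ∨
      ∃ g ∈ MulAction.stabilizer Γ x, IsUnit (φ g - 1)) :
    Module.Finite R (TT φ (permR Γ R X)) ∧ Module.Free R (TT φ (permR Γ R X)) := by
  classical
  let O := MulAction.orbitRel.Quotient Γ X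
  let Fr : O → Prop := fun o => ∀ g ∈ MulAction.stabilizer Γ (o.out : X), g = 1
  let cl : X → O := fun x => Quotient.mk (MulAction.orbitRel Γ X) x
  have hrep : ∀ x : X, ∃ g : Γ, x = g • ((cl x).out : X) := by
    intro x
    have h1 : (MulAction.orbitRel Γ X).r (cl x).out x :=
      Quotient.mk_out (s := MulAction.orbitRel Γ X) x
    have h2 := (MulAction.orbitRel Γ X).symm h1
    obtain ⟨g, hg⟩ := h2
    exact ⟨g, hg.symm⟩
  choose gx hgx using hrep
  have hcl : ∀ (g : Γ) (x : X), cl (g • x) = cl x := fun g x => Quotient.sound ⟨g, rfl⟩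
  have hout : ∀ o : O, cl (o.out : X) = o := fun o => Quotient.out_eq o
  have hOfin : Finite O := by
    have : Function.Surjective (fun y : s => cl y.1) := by
      intro o
      obtain ⟨g, y, hy, hxy⟩ := hs (o.out : X)
      refine ⟨⟨y, hy⟩, ?_⟩
      change cl y = o
      rw [← hcl g y, ← hxy, hout]
    exact Finite.of_surjective _ this
  let S := {o : O // Fr o}
  let L0 : X → (S →₀ R) := fun x =>
    if h : Fr (cl x) then Finsupp.single ⟨cl x, h⟩ (φ (gx x)) else 0
  let L : (X →₀ R) →ₗ[R] (S →₀ R) := Finsupp.lift (S →₀ R) R X L0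
  have hL1 : ∀ x (a : R), L (Finsupp.single x a) = a • L0 x := fun x a => by
    simp only [L]
    rw [Finsupp.lift_apply, Finsupp.sum_single_index (by simp)]
  have hL0 : ∀ (g : Γ) (x : X), L0 (g • x) = φ g • L0 x := by
    intro g x
    simp only [L0]
    by_cases h : Fr (cl x)
    · have h' : Fr (cl (g • x)) := by rw [hcl]; exact h
      rw [dif_pos h, dif_pos h']
      have h1 := hgx (g • x)
      have h2 := hgx x
      have h3 : gx (g • x) = g * gx x := by
        rw [hcl] at h1
        have h4 : (gx (g • x))⁻¹ * (g * gx x) ∈ MulAction.stabilizer Γ ((cl x).out : X) := by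
          rw [MulAction.mem_stabilizer_iff, mul_smul, mul_smul, ← h2, inv_smul_eq_iff]
          exact h1
        have h5 := h _ h4
        exact (inv_mul_eq_one.mp h5)
      rw [h3, map_mul, Finsupp.smul_single, smul_eq_mul]
      congr 1
      exact Subtype.ext (hcl g x)
    · have h' : ¬ Fr (cl (g • x)) := by rw [hcl]; exact h
      rw [dif_neg h, dif_neg h', smul_zero]
  have hL : ∀ g x, L (permR Γ R X g x) = φ g • L x := by
    intro g x
    induction x using Finsupp.induction_linear with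
    | zero => simp
    | add u v hu hv => rw [map_add, map_add, hu, hv, map_add, smul_add]
    | single x a => rw [permR_single, hL1, hL1, hL0, smul_comm]
  let A : TT φ (permR Γ R X) →ₗ[R] (S →₀ R) := tlift φ _ L hL
  let B : (S →₀ R) →ₗ[R] TT φ (permR Γ R X) :=
    Finsupp.lift _ R S (fun o => Submodule.Quotient.mk (Finsupp.single (o.1.out : X) (1 : R)))
  have hB1 : ∀ (o : S) (a : R), B (Finsupp.single o a) =
      a • Submodule.Quotient.mk (Finsupp.single (o.1.out : X) (1 : R)) := fun o a => by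
    simp only [B]
    rw [Finsupp.lift_apply, Finsupp.sum_single_index (by simp)]
  have hAB : A ∘ₗ B = LinearMap.id := by
    refine Finsupp.lhom_ext' fun o => LinearMap.ext_ring ?_
    rw [LinearMap.comp_apply, LinearMap.comp_apply, Finsupp.lsingle_apply, hB1, one_smul,
      LinearMap.comp_apply, Finsupp.lsingle_apply, LinearMap.id_apply]
    change L (Finsupp.single (o.1.out : X) 1) = _
    rw [hL1, one_smul]
    simp only [L0]
    have h1 : cl (o.1.out : X) = o.1 := hout o.1
    have h2 : Fr (cl (o.1.out : X)) := by rw [h1]; exact o.2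
    rw [dif_pos h2]
    have h3 : gx (o.1.out : X) = 1 := by
      have h4 := hgx (o.1.out : X)
      rw [h1] at h4
      exact o.2 _ (MulAction.mem_stabilizer_iff.mpr h4.symm)
    rw [h3, map_one]
    congr 1
    exact Subtype.ext h1
  have hBA : B ∘ₗ A = LinearMap.id := by
    refine Submodule.linearMap_qext _ (Finsupp.lhom_ext' fun x => LinearMap.ext_ring ?_)
    change B (L (Finsupp.single x 1)) = Submodule.Quotient.mk (Finsupp.single x 1)
    rw [hL1, one_smul]
    have hx : (Submodule.Quotient.mk (Finsupp.single x (1 : R)) : TT φ (permR Γ R X)) =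
        φ (gx x) • Submodule.Quotient.mk (Finsupp.single ((cl x).out : X) (1 : R)) := by
      rw [← mk_act, permR_single, ← hgx x]
    simp only [L0]
    by_cases h : Fr (cl x)
    · rw [dif_pos h, hB1, hx]
    · rw [dif_neg h, map_zero, hx]
      have h1 := (hst ((cl x).out : X)).resolve_left h
      obtain ⟨g, hg, hu⟩ := h1
      have h2 : (φ g - 1) • (Submodule.Quotient.mk (Finsupp.single ((cl x).out : X) (1 : R)) :
          TT φ (permR Γ R X)) = 0 := by
        rw [sub_smul, one_smul, ← mk_act, permR_single, MulAction.mem_stabilizer_iff.mp hg,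
          sub_self]
      rw [(hu.smul_eq_zero).mp h2, smul_zero]
  let e : TT φ (permR Γ R X) ≃ₗ[R] (S →₀ R) := LinearEquiv.ofLinearMap A B hAB hBA
  exact ⟨Module.Finite.equiv e.symm, Module.Free.of_equiv e.symm⟩

section prod

variable {M M' : Type} [AddCommGroup M] [Module R M] [AddCommGroup M'] [Module R M']
    (ρ : Representation R Γ M) (ρ' : Representation R Γ M')

/-- first projection -/
def pf : TT φ (ρ.prod ρ') →ₗ[R] TT φ ρ :=
  tmap φ (ρ.prod ρ') ρ (LinearMap.fst R M M') (fun _ _ => rfl)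

/-- second projection -/
def ps : TT φ (ρ.prod ρ') →ₗ[R] TT φ ρ' :=
  tmap φ (ρ.prod ρ') ρ' (LinearMap.snd R M M') (fun _ _ => rfl)

/-- first inclusion -/
def jf : TT φ ρ →ₗ[R] TT φ (ρ.prod ρ') :=
  tmap φ ρ (ρ.prod ρ') (LinearMap.inl R M M') (fun g x => by ext <;> simp)

/-- second inclusion -/
def js : TT φ ρ' →ₗ[R] TT φ (ρ.prod ρ') :=
  tmap φ ρ' (ρ.prod ρ') (LinearMap.inr R M M') (fun g x => by ext <;> simp)

theorem js_ps (z : TT φ (ρ.prod ρ')) : jf φ ρ ρ' (pf φ ρ ρ' z) + js φ ρ ρ' (ps φ ρ ρ' z) = z := by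
  obtain ⟨z, rfl⟩ := Submodule.Quotient.mk_surjective _ z
  change Submodule.Quotient.mk (LinearMap.inl R M M' z.1) +
    Submodule.Quotient.mk (LinearMap.inr R M M' z.2) = Submodule.Quotient.mk z
  rw [← Submodule.Quotient.mk_add]
  congr 1
  simp

theorem ps_js (z : TT φ ρ') : ps φ ρ ρ' (js φ ρ ρ' z) = z := by
  obtain ⟨z, rfl⟩ := Submodule.Quotient.mk_surjective _ z
  rfl

theorem pf_jf (z : TT φ ρ) : pf φ ρ ρ' (jf φ ρ ρ' z) = z := by
  obtain ⟨z, rfl⟩ := Submodule.Quotient.mk_surjective _ z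
  rfl

theorem pf_js (z : TT φ ρ') : pf φ ρ ρ' (js φ ρ ρ' z) = 0 := by
  obtain ⟨z, rfl⟩ := Submodule.Quotient.mk_surjective _ z
  rfl

/-- the coinvariants of a product -/
theorem tprod_exact : Function.Injective (js φ ρ ρ') ∧ Function.Exact (js φ ρ ρ') (pf φ ρ ρ') ∧
    Function.Surjective (pf φ ρ ρ') := by
  refine ⟨fun a b h => ?_, fun z => ⟨fun h => ?_, ?_⟩, fun z => ⟨jf φ ρ ρ' z, pf_jf φ ρ ρ' z⟩⟩
  · have := congrArg (ps φ ρ ρ') h
    rwa [ps_js, ps_js] at this
  · refine ⟨ps φ ρ ρ' z, ?_⟩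
    have := js_ps φ ρ ρ' z
    rwa [h, map_zero, zero_add] at this
  · rintro ⟨y, rfl⟩
    exact pf_js φ ρ ρ' y

end prod

/-- the coinvariants of the kernel of an equivariant idempotent -/
theorem tker {M M' : Type} [AddCommGroup M] [Module R M] [AddCommGroup M'] [Module R M']
    (ρ : Representation R Γ M) (ρ' : Representation R Γ M') (E : M →ₗ[R] M)
    (hE : ∀ g x, E (ρ g x) = ρ g (E x)) (i : M' →ₗ[R] M) (hi : ∀ g x, i (ρ' g x) = ρ g (i x))
    (q : M →ₗ[R] M') (hq : ∀ g x, q (ρ g x) = ρ' g (q x)) (hqi : ∀ x, q (i x) = x)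
    (hiq : ∀ x, i (q x) = x - E x) (hEi : ∀ x, E (i x) = 0) :
    Nonempty (TT φ ρ' ≃ₗ[R] LinearMap.ker (tmap φ ρ ρ E hE)) := by
  let I := tmap φ ρ' ρ i hi
  let Q := tmap φ ρ ρ' q hq
  have h1 : ∀ z, Q (I z) = z := by
    intro z
    obtain ⟨z, rfl⟩ := Submodule.Quotient.mk_surjective _ z
    change Submodule.Quotient.mk (q (i z)) = _
    rw [hqi]
  have h2 : ∀ z, I z ∈ LinearMap.ker (tmap φ ρ ρ E hE) := by
    intro z
    obtain ⟨z, rfl⟩ := Submodule.Quotient.mk_surjective _ z
    change Submodule.Quotient.mk (E (i z)) = _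
    rw [hEi, Submodule.Quotient.mk_zero]
  have h3 : ∀ z, I (Q z) = z - tmap φ ρ ρ E hE z := by
    intro z
    obtain ⟨z, rfl⟩ := Submodule.Quotient.mk_surjective _ z
    change Submodule.Quotient.mk (i (q z)) = Submodule.Quotient.mk (z - E z)
    rw [hiq]
  let I' := LinearMap.codRestrict (LinearMap.ker (tmap φ ρ ρ E hE)) I h2
  refine ⟨LinearEquiv.ofBijective I' ⟨fun a b h => ?_, fun z => ⟨Q z.1, ?_⟩⟩⟩
  · have h4 : I a = I b := congrArg Subtype.val h
    rw [← h1 a, ← h1 b, h4]
  · apply Subtype.ext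
    change I (Q z.1) = z.1
    rw [h3, LinearMap.mem_ker.mp z.2, sub_zero]

end

end Pool.Agent.H37.NF
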