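import Mathlib
import Pool.Agent.H37.NF.Cop
import Pool.Agent.H59.FS.PC

/-!
# MP_5c3080_gt, part (3): the free module `R[Γ]^r` and the endomorphism given by a matrix over `ℤ[P]`
-/

set_option autoImplicit false
set_option linter.unusedSectionVars false

namespace Pool.Agent.H37.NF

open Pool.Agent.H59.FS

noncomputable section

variable {Γ R P : Type} [Group Γ] [CommRing R] [Group P] [Fintype P]

/-- the free module -/
def freR (Γ R : Type) [Group Γ] [CommRing R] (r : ℕ) : Representation R Γ (Fin r → (Γ →₀ R)) where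
  toFun g := LinearMap.pi fun i => permR Γ R Γ g ∘ₗ LinearMap.proj i
  map_one' := by
    ext x i
    simp
  map_mul' g h := by
    ext x i
    simp

theorem freR_apply (r : ℕ) (g : Γ) (x : Fin r → (Γ →₀ R)) (i : Fin r) :
    freR Γ R r g x i = permR Γ R Γ g (x i) := rfl

theorem gpr_fre (r : ℕ) : GPr (freR Γ R r) := by
  have h0 : GPr (permR Γ R Γ) := by
    have h1 : ∀ x : Γ, MulAction.stabilizer Γ x = ⊥ := by
      intro x
      rw [eq_bot_iff]
      intro g hg
      rw [MulAction.mem_stabilizer_iff, smul_eq_mul] at hg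
      exact mul_eq_right.mp hg
    refine gpr_perm Γ (fun x => ?_) (fun x => ?_)
    · rw [h1 x]
      infer_instance
    · rw [h1 x]
      simp
  intro A B _ _ _ _ α β p f hp hf hpf
  have h1 : ∀ i : Fin r, ∃ f' : (Γ →₀ R) →ₗ[R] A, (∀ g x, f' (permR Γ R Γ g x) = α g (f' x)) ∧
      ∀ x, p (f' x) = f (Pi.single i x) := by
    intro i
    exact h0 A B α β p (f ∘ₗ LinearMap.single R (fun _ => Γ →₀ R) i) hp
      (fun g x => by
        rw [LinearMap.comp_apply, LinearMap.comp_apply, ← hf]
        congr 1
        ext j : 1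
        rw [freR_apply, LinearMap.single_apply, LinearMap.single_apply]
        by_cases h : j = i
        · subst h; simp
        · simp [Pi.single_eq_of_ne h]) (fun x => hpf _)
  choose f' h2 h3 using h1
  refine ⟨∑ i, f' i ∘ₗ LinearMap.proj i, fun g x => ?_, fun x => ?_⟩
  · rw [LinearMap.sum_apply, LinearMap.sum_apply, map_sum]
    refine Finset.sum_congr rfl fun i _ => ?_
    exact h2 i g (x i)
  · rw [LinearMap.sum_apply, map_sum]
    have h4 : ∀ i : Fin r, p ((f' i ∘ₗ LinearMap.proj i) x) = f (Pi.single i (x i)) :=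
      fun i => h3 i (x i)
    rw [Finset.sum_congr rfl fun i _ => h4 i, ← map_sum]
    congr 1
    exact Finset.univ_sum_single x

/-- right translation -/
def rtr (R : Type) [CommRing R] (ι : P →* Γ) (p : P) : (Γ →₀ R) →ₗ[R] (Γ →₀ R) :=
  Finsupp.lmapDomain R R (fun g => g * ι p)

theorem rtr_single (ι : P →* Γ) (p : P) (g : Γ) (a : R) :
    rtr R ι p (Finsupp.single g a) = Finsupp.single (g * ι p) a := by
  simp [rtr]

theorem rtr_act (ι : P →* Γ) (p : P) (g : Γ) (x : Γ →₀ R) :
    rtr R ι p (permR Γ R Γ g x) = permR Γ R Γ g (rtr R ι p x) := by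
  induction x using Finsupp.induction_linear with
  | zero => simp
  | add u v hu hv => simp only [map_add, hu, hv]
  | single y a => rw [permR_single, rtr_single, rtr_single, permR_single, smul_eq_mul,
      smul_eq_mul, mul_assoc]

theorem rtr_rtr (ι : P →* Γ) (p q : P) (x : Γ →₀ R) :
    rtr R ι q (rtr R ι p x) = rtr R ι (p * q) x := by
  induction x using Finsupp.induction_linear with
  | zero => simp
  | add u v hu hv => simp only [map_add, hu, hv]
  | single y a => rw [rtr_single, rtr_single, rtr_single, map_mul, mul_assoc]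

/-- multiplication by the matrix `e` -/
def mulEL (R : Type) [CommRing R] (ι : P →* Γ) {r : ℕ} (e : Fin r → Fin r → P → ℤ) :
    (Fin r → (Γ →₀ R)) →ₗ[R] (Fin r → (Γ →₀ R)) :=
  LinearMap.pi fun i => ∑ j : Fin r, ∑ p : P, ((e j i p : ℤ) : R) • (rtr R ι p ∘ₗ LinearMap.proj j)

theorem mulEL_apply (ι : P →* Γ) {r : ℕ} (e : Fin r → Fin r → P → ℤ) (x : Fin r → (Γ →₀ R))
    (i : Fin r) : mulEL R ι e x i = ∑ j : Fin r, ∑ p : P, ((e j i p : ℤ) : R) • rtr R ι p (x j) := by
  simp [mulEL]

theorem mulEL_eq (ι : P →* Γ) {r : ℕ} (e : Fin r → Fin r → P → ℤ) (x : Fin r → (Γ →₀ R))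
    (i : Fin r) : mulEL R ι e x i = mulE ι e x i := by
  rw [mulEL_apply, mulE]
  rfl

theorem mulEL_act (ι : P →* Γ) {r : ℕ} (e : Fin r → Fin r → P → ℤ) (g : Γ)
    (x : Fin r → (Γ →₀ R)) : mulEL R ι e (freR Γ R r g x) = freR Γ R r g (mulEL R ι e x) := by
  funext i
  rw [mulEL_apply, freR_apply, mulEL_apply, map_sum]
  refine Finset.sum_congr rfl fun j _ => ?_
  rw [map_sum]
  refine Finset.sum_congr rfl fun p _ => ?_
  rw [map_smul, freR_apply, rtr_act]

theorem mulEL_idem (ι : P →* Γ) {r : ℕ} (e : Fin r → Fin r → P → ℤ) (he : IsIdem e)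
    (x : Fin r → (Γ →₀ R)) : mulEL R ι e (mulEL R ι e x) = mulEL R ι e x := by
  funext i
  rw [mulEL_apply, mulEL_apply]
  have h1 : ∀ (l : Fin r) (q : P), ((e l i q : ℤ) : R) • rtr R ι q (mulEL R ι e x l) =
      ∑ j : Fin r, ∑ p : P, (((e j l p * e l i q : ℤ)) : R) • rtr R ι (p * q) (x j) := by
    intro l q
    rw [mulEL_apply, map_sum, Finset.smul_sum]
    refine Finset.sum_congr rfl fun j _ => ?_
    rw [map_sum, Finset.smul_sum]
    refine Finset.sum_congr rfl fun p _ => ?_
    rw [map_smul, rtr_rtr, smul_smul, Int.cast_mul, mul_comm]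
  simp only [h1]
  -- reorganise
  have h2 : ∀ (j l : Fin r), ∑ q : P, ∑ p : P, (((e j l p * e l i q : ℤ)) : R) •
      rtr R ι (p * q) (x j) = ∑ s : P, (((∑ p : P, e j l p * e l i (p⁻¹ * s) : ℤ)) : R) •
        rtr R ι s (x j) := by
    intro j l
    rw [Finset.sum_comm]
    have h3 : ∀ p : P, ∑ q : P, (((e j l p * e l i q : ℤ)) : R) • rtr R ι (p * q) (x j) =
        ∑ s : P, (((e j l p * e l i (p⁻¹ * s) : ℤ)) : R) • rtr R ι s (x j) := by
      intro p
      refine Fintype.sum_equiv (Equiv.mulLeft p) _ _ fun q => ?_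
      rw [Equiv.coe_mulLeft, inv_mul_cancel_left]
    rw [Finset.sum_congr rfl fun p _ => h3 p, Finset.sum_comm]
    refine Finset.sum_congr rfl fun s _ => ?_
    rw [← Finset.sum_smul, Int.cast_sum]
  calc ∑ l : Fin r, ∑ q : P, ∑ j : Fin r, ∑ p : P, (((e j l p * e l i q : ℤ)) : R) •
        rtr R ι (p * q) (x j)
      = ∑ l : Fin r, ∑ j : Fin r, ∑ q : P, ∑ p : P, (((e j l p * e l i q : ℤ)) : R) •
        rtr R ι (p * q) (x j) := by
        refine Finset.sum_congr rfl fun l _ => ?_
        rw [Finset.sum_comm]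
    _ = ∑ j : Fin r, ∑ l : Fin r, ∑ s : P,
        (((∑ p : P, e j l p * e l i (p⁻¹ * s) : ℤ)) : R) • rtr R ι s (x j) := by
        rw [Finset.sum_comm]
        refine Finset.sum_congr rfl fun j _ => Finset.sum_congr rfl fun l _ => h2 j l
    _ = ∑ j : Fin r, ∑ s : P, ((e j i s : ℤ) : R) • rtr R ι s (x j) := by
        refine Finset.sum_congr rfl fun j _ => ?_
        rw [Finset.sum_comm]
        refine Finset.sum_congr rfl fun s _ => ?_
        rw [← Finset.sum_smul, ← Int.cast_sum, he j i s]

/-! the coinvariants of the free module -/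

section coinv

variable (φ : Γ →* R)

/-- evaluation of a group ring element -/
def evR : (Γ →₀ R) →ₗ[R] R := Finsupp.lift R R Γ fun g => φ g

theorem evR_single (g : Γ) (a : R) : evR φ (Finsupp.single g a) = a * φ g := by
  simp [evR]

theorem evR_act (g : Γ) (x : Γ →₀ R) : evR φ (permR Γ R Γ g x) = φ g • evR φ x := by
  induction x using Finsupp.induction_linear with
  | zero => simp
  | add u v hu hv => rw [map_add, map_add, hu, hv, map_add, smul_add]
  | single y a =>
    rw [permR_single, evR_single, evR_single, smul_eq_mul, map_mul, smul_eq_mul]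
    ring

theorem evR_rtr (ι : P →* Γ) (p : P) (x : Γ →₀ R) : evR φ (rtr R ι p x) = φ (ι p) * evR φ x := by
  induction x using Finsupp.induction_linear with
  | zero => simp
  | add u v hu hv => rw [map_add, map_add, hu, hv, map_add, mul_add]
  | single y a =>
    rw [rtr_single, evR_single, evR_single, map_mul]
    ring

/-- the coinvariants of the free module are `R^r` -/
def tfre (r : ℕ) : TT φ (freR Γ R r) ≃ₗ[R] (Fin r → R) :=
  LinearEquiv.ofLinearMap
    (tlift φ (freR Γ R r) (LinearMap.pi fun i => evR φ ∘ₗ LinearMap.proj i) (fun g x => by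
      funext i
      exact evR_act φ g (x i)))
    ((CoI φ (freR Γ R r)).mkQ ∘ₗ LinearMap.pi fun i => (Finsupp.lsingle 1) ∘ₗ LinearMap.proj i)
    (by
      refine LinearMap.ext fun y => funext fun i => ?_
      change evR φ (Finsupp.single 1 (y i)) = y i
      rw [evR_single, map_one φ, mul_one])
    (by
      refine Submodule.linearMap_qext _ ?_
      refine LinearMap.pi_ext fun i x => ?_
      induction x using Finsupp.induction_linear with
      | zero => simp
      | add u v hu hv => rw [Pi.single_add, map_add, map_add, hu, hv]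
      | single y a =>
        change (CoI φ (freR Γ R r)).mkQ _ = (CoI φ (freR Γ R r)).mkQ _
        have h1 := mk_act φ (freR Γ R r) y (Pi.single i (Finsupp.single 1 a))
        have h2 : freR Γ R r y (Pi.single i (Finsupp.single 1 a)) =
            Pi.single i (Finsupp.single y a) := by
          funext j
          rw [freR_apply]
          by_cases h : j = i
          · subst h
            rw [Pi.single_eq_same, Pi.single_eq_same, permR_single, smul_eq_mul, mul_one]
          · rw [Pi.single_eq_of_ne h, Pi.single_eq_of_ne h, map_zero]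
        rw [h2] at h1
        change _ = Submodule.Quotient.mk _
        rw [h1, ← Submodule.Quotient.mk_smul]
        change Submodule.Quotient.mk _ = _
        congr 1
        funext j
        change Finsupp.single 1 (evR φ ((Pi.single i (Finsupp.single y a) : Fin r → (Γ →₀ R)) j)) = _
        rw [Pi.smul_apply]
        by_cases h : j = i
        · subst h
          rw [Pi.single_eq_same, Pi.single_eq_same, evR_single, Finsupp.smul_single, smul_eq_mul,
            mul_comm]
        · rw [Pi.single_eq_of_ne h, Pi.single_eq_of_ne h, map_zero, Finsupp.single_zero,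
            smul_zero])

theorem tfre_mk (r : ℕ) (x : Fin r → (Γ →₀ R)) (i : Fin r) :
    tfre φ r (Submodule.Quotient.mk x) i = evR φ (x i) := rfl

/-- the matrix over `R` -/
def eR (φ : Γ →* R) (ι : P →* Γ) {r : ℕ} (e : Fin r → Fin r → P → ℤ) : Matrix (Fin r) (Fin r) R :=
  fun i j => ∑ p : P, ((e j i p : ℤ) : R) * φ (ι p)

/-- the endomorphism of the coinvariants is given by the matrix -/
theorem tfre_mulEL (ι : P →* Γ) {r : ℕ} (e : Fin r → Fin r → P → ℤ) (z : TT φ (freR Γ R r)) :
    tfre φ r (tmap φ _ _ (mulEL R ι e) (mulEL_act ι e) z) = (eR φ ι e).mulVecLin (tfre φ r z) := by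
  obtain ⟨z, rfl⟩ := Submodule.Quotient.mk_surjective _ z
  funext i
  rw [tmap_mk, tfre_mk, mulEL_apply, map_sum, Matrix.mulVecLin_apply, Matrix.mulVec, dotProduct]
  refine Finset.sum_congr rfl fun j _ => ?_
  rw [map_sum, tfre_mk, eR, Finset.sum_mul]
  refine Finset.sum_congr rfl fun p _ => ?_
  rw [map_smul, evR_rtr, smul_eq_mul, mul_assoc]

end coinv

end

end Pool.Agent.H37.NF
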