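import Mathlib
import Pool.Agent.H37.NF.Defs

/-!
# MP_5c3080_gt, part (3): the comparison theorem

Two resolutions of the trivial module by modules with the lifting property have isomorphic
homology of the coinvariants.
-/

set_option autoImplicit false

namespace Pool.Agent.H37.NF

open Pool.Agent.H4.CU (Cx Hr Fam EulerFn Good)
open Pool.Agent.H37.CG (Tf Of)

noncomputable section

variable {Γ R : Type} [Group Γ] [CommRing R]

/-- states of the recursion for chain maps -/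
def StC (C C' : GC Γ R) (n : ℕ) : Type :=
  {f : C.K.M n →ₗ[R] C'.K.M n // (∀ g x, f (C.ρ n g x) = C'.ρ n g (f x)) ∧
    ∀ x, ∃ y, C'.K.d n y = f (C.K.d n x)}

theorem exists_chain (C C' : GC Γ R) (hC : C.Pr) (hC' : C'.Ex) :
    ∃ f : ∀ n, C.K.M n →ₗ[R] C'.K.M n, (∀ n g x, f n (C.ρ n g x) = C'.ρ n g (f n x)) ∧
      (∀ x, C'.ε (f 0 x) = C.ε x) ∧ ∀ n x, C'.K.d n (f (n + 1) x) = f n (C.K.d n x) := by
  obtain ⟨⟨x0, hx0⟩, h0, hn⟩ := hC'
  -- the start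
  obtain ⟨f0, hf0, hf0'⟩ := hC 0 (C'.K.M 0) R (C'.ρ 0) (1 : Representation R Γ R) C'.ε C.ε
    (fun g x => by rw [C'.ε_eq]; rfl) (fun g x => by rw [C.ε_eq]; rfl)
    (fun x => ⟨C.ε x • x0, by rw [map_smul, hx0, smul_eq_mul, mul_one]⟩)
  have step : ∀ n (s : StC C C' n), ∃ t : StC C C' (n + 1),
      ∀ x, C'.K.d n (t.1 x) = s.1 (C.K.d n x) := by
    rintro n ⟨s, hs1, hs2⟩
    obtain ⟨t, ht1, ht2⟩ := hC (n + 1) (C'.K.M (n + 1)) (C'.K.M n) (C'.ρ (n + 1)) (C'.ρ n)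
      (C'.K.d n) (s ∘ₗ C.K.d n) (fun g x => C'.eq n g x)
      (fun g x => by rw [LinearMap.comp_apply, C.eq, hs1]; rfl) (fun x => hs2 x)
    refine ⟨⟨t, ht1, fun x => hn n _ ?_⟩, ht2⟩
    rw [ht2, LinearMap.comp_apply, C.K.dd, map_zero]
  choose st hst using step
  let F : ∀ n, StC C C' n := fun n => Nat.rec (motive := fun n => StC C C' n)
    ⟨f0, hf0, fun x => h0 _ (by rw [hf0', C.ε_d])⟩ (fun n s => st n s) n
  exact ⟨fun n => (F n).1, fun n => (F n).2.1, hf0', fun n x => hst n (F n) x⟩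

/-- states of the recursion for homotopies -/
def StH (C C' : GC Γ R) (h : ∀ n, C.K.M n →ₗ[R] C'.K.M n) (n : ℕ) : Type :=
  {s : C.K.M n →ₗ[R] C'.K.M (n + 1) // (∀ g x, s (C.ρ n g x) = C'.ρ (n + 1) g (s x)) ∧
    ∀ x, C'.K.d n (s (C.K.d n x)) = h n (C.K.d n x)}

theorem exists_htp (C C' : GC Γ R) (hC : C.Pr) (hC' : C'.Ex)
    (h : ∀ n, C.K.M n →ₗ[R] C'.K.M n) (he : ∀ n g x, h n (C.ρ n g x) = C'.ρ n g (h n x))
    (h0 : ∀ x, C'.ε (h 0 x) = 0) (hd : ∀ n x, C'.K.d n (h (n + 1) x) = h n (C.K.d n x)) :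
    ∃ s : ∀ n, C.K.M n →ₗ[R] C'.K.M (n + 1), (∀ n g x, s n (C.ρ n g x) = C'.ρ (n + 1) g (s n x)) ∧
      (∀ x, h 0 x = C'.K.d 0 (s 0 x)) ∧
      ∀ n x, h (n + 1) x = C'.K.d (n + 1) (s (n + 1) x) + s n (C.K.d n x) := by
  obtain ⟨-, e0, en⟩ := hC'
  obtain ⟨s0, hs0, hs0'⟩ := hC 0 (C'.K.M 1) (C'.K.M 0) (C'.ρ 1) (C'.ρ 0) (C'.K.d 0) (h 0)
    (fun g x => C'.eq 0 g x) (fun g x => he 0 g x) (fun x => e0 _ (h0 x))
  have step : ∀ n (s : StH C C' h n), ∃ t : StH C C' h (n + 1),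
      ∀ x, C'.K.d (n + 1) (t.1 x) = h (n + 1) x - s.1 (C.K.d n x) := by
    rintro n ⟨s, hs1, hs2⟩
    obtain ⟨t, ht1, ht2⟩ := hC (n + 1) (C'.K.M (n + 2)) (C'.K.M (n + 1)) (C'.ρ (n + 2))
      (C'.ρ (n + 1)) (C'.K.d (n + 1)) (h (n + 1) - s ∘ₗ C.K.d n) (fun g x => C'.eq (n + 1) g x)
      (fun g x => by
        rw [LinearMap.sub_apply, LinearMap.comp_apply, C.eq, hs1, he, LinearMap.sub_apply,
          LinearMap.comp_apply, map_sub])
      (fun x => en n _ (by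
        rw [LinearMap.sub_apply, LinearMap.comp_apply, map_sub, hd, hs2, sub_self]))
    refine ⟨⟨t, ht1, fun x => ?_⟩, fun x => ht2 x⟩
    rw [ht2, LinearMap.sub_apply, LinearMap.comp_apply, C.K.dd, map_zero, sub_zero]
  choose st hst using step
  let F : ∀ n, StH C C' h n := fun n => Nat.rec (motive := fun n => StH C C' h n)
    ⟨s0, hs0, fun x => hs0' _⟩ (fun n s => st n s) n
  refine ⟨fun n => (F n).1, fun n => (F n).2.1, fun x => (hs0' x).symm, fun n x => ?_⟩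
  have := hst n (F n) x
  change C'.K.d (n + 1) ((F (n + 1)).1 x) = _ at this
  rw [this]
  abel

/-! homology -/

theorem zc0 (E : Cx R) : Pool.Agent.H4.CU.Zc E (Tf E) (Of E) 0 = ⊤ := rfl

theorem zcs (E : Cx R) (n : ℕ) :
    Pool.Agent.H4.CU.Zc E (Tf E) (Of E) (n + 1) = LinearMap.ker (E.d n) := by
  ext x
  rw [Pool.Agent.H4.CU.mem_zc_succ, LinearMap.mem_ker]
  simp

theorem mem_bd' (E : Cx R) (n : ℕ) (x : E.M n) :
    x ∈ Pool.Agent.H4.CU.Bd E (Tf E) (Of E) n ↔ ∃ y, E.d n y = x := by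
  rw [Pool.Agent.H4.CU.mem_bd]
  constructor
  · rintro ⟨b, _, a, ha, rfl⟩
    have h1 : a = 0 := ha
    exact ⟨b, by rw [h1, add_zero]⟩
  · rintro ⟨b, rfl⟩
    exact ⟨b, trivial, 0, rfl, by rw [add_zero]⟩

theorem zc_map {K K' : Cx R} (F : ∀ n, K.M n →ₗ[R] K'.M n)
    (hF : ∀ n x, K'.d n (F (n + 1) x) = F n (K.d n x)) (n : ℕ) (x : K.M n)
    (hx : x ∈ Pool.Agent.H4.CU.Zc K (Tf K) (Of K) n) :
    F n x ∈ Pool.Agent.H4.CU.Zc K' (Tf K') (Of K') n := by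
  cases n with
  | zero => trivial
  | succ n =>
    rw [zcs, LinearMap.mem_ker] at hx ⊢
    rw [hF, hx, map_zero]

/-- the map of the homology -/
def hmap {K K' : Cx R} (F : ∀ n, K.M n →ₗ[R] K'.M n)
    (hF : ∀ n x, K'.d n (F (n + 1) x) = F n (K.d n x)) (n : ℕ) :
    Hr K (Tf K) (Of K) n →ₗ[R] Hr K' (Tf K') (Of K') n :=
  Submodule.mapQ _ _ (LinearMap.restrict (F n) (zc_map F hF n)) (by
    intro x hx
    have hx' : (x : K.M n) ∈ Pool.Agent.H4.CU.Bd K (Tf K) (Of K) n := hx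
    obtain ⟨y, hy⟩ := (mem_bd' K n x).mp hx'
    change F n (x : K.M n) ∈ Pool.Agent.H4.CU.Bd K' (Tf K') (Of K') n
    rw [mem_bd', ← hy]
    exact ⟨F (n + 1) y, hF n y⟩)

theorem hmap_comp {K K' : Cx R} (F : ∀ n, K.M n →ₗ[R] K'.M n)
    (hF : ∀ n x, K'.d n (F (n + 1) x) = F n (K.d n x)) (G : ∀ n, K'.M n →ₗ[R] K.M n)
    (hG : ∀ n x, K.d n (G (n + 1) x) = G n (K'.d n x)) (s : ∀ n, K.M n →ₗ[R] K.M (n + 1))
    (hs0 : ∀ x, G 0 (F 0 x) - x = K.d 0 (s 0 x))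
    (hs : ∀ n x, G (n + 1) (F (n + 1) x) - x = K.d (n + 1) (s (n + 1) x) + s n (K.d n x)) (n : ℕ)
    (z : Hr K (Tf K) (Of K) n) : hmap G hG n (hmap F hF n z) = z := by
  obtain ⟨z, rfl⟩ := Submodule.Quotient.mk_surjective _ z
  change Submodule.Quotient.mk _ = Submodule.Quotient.mk z
  rw [Submodule.Quotient.eq]
  change G n (F n z) - z ∈ Pool.Agent.H4.CU.Bd K (Tf K) (Of K) n
  rw [mem_bd']
  cases n with
  | zero => exact ⟨s 0 z, (hs0 z).symm⟩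
  | succ n =>
    have hz : K.d n z = 0 := by
      have h1 := (zcs K n).le z.2
      exact h1
    refine ⟨s (n + 1) z, ?_⟩
    rw [hs, hz, map_zero, add_zero]

theorem hr_iso {K K' : Cx R} (F : ∀ n, K.M n →ₗ[R] K'.M n)
    (hF : ∀ n x, K'.d n (F (n + 1) x) = F n (K.d n x)) (G : ∀ n, K'.M n →ₗ[R] K.M n)
    (hG : ∀ n x, K.d n (G (n + 1) x) = G n (K'.d n x)) (s : ∀ n, K.M n →ₗ[R] K.M (n + 1))
    (hs0 : ∀ x, G 0 (F 0 x) - x = K.d 0 (s 0 x))
    (hs : ∀ n x, G (n + 1) (F (n + 1) x) - x = K.d (n + 1) (s (n + 1) x) + s n (K.d n x))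
    (s' : ∀ n, K'.M n →ₗ[R] K'.M (n + 1))
    (hs0' : ∀ x, F 0 (G 0 x) - x = K'.d 0 (s' 0 x))
    (hs' : ∀ n x, F (n + 1) (G (n + 1) x) - x = K'.d (n + 1) (s' (n + 1) x) + s' n (K'.d n x))
    (n : ℕ) : Nonempty (Hr K (Tf K) (Of K) n ≃ₗ[R] Hr K' (Tf K') (Of K') n) :=
  ⟨LinearEquiv.ofLinearMap (hmap F hF n) (hmap G hG n)
    (LinearMap.ext fun z => hmap_comp G hG F hF s' hs0' hs' n z)
    (LinearMap.ext fun z => hmap_comp F hF G hG s hs0 hs n z)⟩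

/-- THE COMPARISON THEOREM. -/
theorem comparison (C C' : GC Γ R) (φ : Γ →* R) (h1 : C.Ex) (h2 : C.Pr) (h1' : C'.Ex)
    (h2' : C'.Pr) (n : ℕ) :
    Nonempty (Hr (C.T φ) (Tf (C.T φ)) (Of (C.T φ)) n ≃ₗ[R]
      Hr (C'.T φ) (Tf (C'.T φ)) (Of (C'.T φ)) n) := by
  obtain ⟨f, hf, hf0, hfd⟩ := exists_chain C C' h2 h1'
  obtain ⟨g, hg, hg0, hgd⟩ := exists_chain C' C h2' h1
  obtain ⟨s, hse, hs0, hs⟩ := exists_htp C C h2 h1 (fun n => g n ∘ₗ f n - LinearMap.id)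
    (fun n a x => by
      simp only [LinearMap.sub_apply, LinearMap.comp_apply, LinearMap.id_apply, hf, hg, map_sub])
    (fun x => by
      simp only [LinearMap.sub_apply, LinearMap.comp_apply, LinearMap.id_apply, map_sub, hg0, hf0,
        sub_self])
    (fun n x => by
      simp only [LinearMap.sub_apply, LinearMap.comp_apply, LinearMap.id_apply, map_sub, hgd, hfd])
  obtain ⟨s', hse', hs0', hs'⟩ := exists_htp C' C' h2' h1' (fun n => f n ∘ₗ g n - LinearMap.id)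
    (fun n a x => by
      simp only [LinearMap.sub_apply, LinearMap.comp_apply, LinearMap.id_apply, hf, hg, map_sub])
    (fun x => by
      simp only [LinearMap.sub_apply, LinearMap.comp_apply, LinearMap.id_apply, map_sub, hg0, hf0,
        sub_self])
    (fun n x => by
      simp only [LinearMap.sub_apply, LinearMap.comp_apply, LinearMap.id_apply, map_sub, hgd, hfd])
  refine hr_iso (K := C.T φ) (K' := C'.T φ) (fun n => tmap φ _ _ (f n) (hf n)) ?_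
    (fun n => tmap φ _ _ (g n) (hg n)) ?_ (fun n => tmap φ _ _ (s n) (hse n)) ?_ ?_
    (fun n => tmap φ _ _ (s' n) (hse' n)) ?_ ?_ n
  · intro n x
    obtain ⟨x, rfl⟩ := Submodule.Quotient.mk_surjective _ x
    change Submodule.Quotient.mk _ = Submodule.Quotient.mk _
    rw [hfd]
  · intro n x
    obtain ⟨x, rfl⟩ := Submodule.Quotient.mk_surjective _ x
    change Submodule.Quotient.mk _ = Submodule.Quotient.mk _
    rw [hgd]
  · intro x
    obtain ⟨x, rfl⟩ := Submodule.Quotient.mk_surjective _ x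
    exact congrArg (Submodule.Quotient.mk (p := CoI φ (C.ρ 0))) (hs0 x)
  · intro n x
    obtain ⟨x, rfl⟩ := Submodule.Quotient.mk_surjective _ x
    exact congrArg (Submodule.Quotient.mk (p := CoI φ (C.ρ (n + 1)))) (hs n x)
  · intro x
    obtain ⟨x, rfl⟩ := Submodule.Quotient.mk_surjective _ x
    exact congrArg (Submodule.Quotient.mk (p := CoI φ (C'.ρ 0))) (hs0' x)
  · intro n x
    obtain ⟨x, rfl⟩ := Submodule.Quotient.mk_surjective _ x
    exact congrArg (Submodule.Quotient.mk (p := CoI φ (C'.ρ (n + 1)))) (hs' n x)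

end

end Pool.Agent.H37.NF
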