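import Mathlib
import Pool.Agent.H37.NF.Cmp
import Pool.Agent.H37.CG.Eul

/-!
# MP_5c3080_gt, part (3): the Euler class of a bounded complex of finitely generated modules
-/

set_option autoImplicit false

namespace Pool.Agent.H37.NF

open Pool.Agent.H4.CU (Cx Hr Fam EulerFn Good)
open Pool.Agent.H37.CG

noncomputable section

theorem good_iso {R A : Type} [CommRing R] [AddCommGroup A] (E : EulerFn R A) (H H' : ℕ → Type)
    [∀ k, AddCommGroup (H k)] [∀ k, Module R (H k)] [∀ k, AddCommGroup (H' k)]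
    [∀ k, Module R (H' k)] (h : ∀ k, Nonempty (H k ≃ₗ[R] H' k)) {w : A} (hw : Good E H w) :
    Good E H' w := by
  obtain ⟨h1, N, h2, h3⟩ := hw
  refine ⟨fun k => ?_, N, fun k hk => ?_, fun N' hN' => ?_⟩
  · obtain ⟨e⟩ := h k
    have := h1 k
    exact Module.Finite.equiv e
  · obtain ⟨e⟩ := h k
    have := h2 k hk
    exact e.symm.injective.subsingleton
  · rw [← h3 N' hN']
    refine Finset.sum_congr rfl fun k _ => ?_
    obtain ⟨e⟩ := h k
    rw [E.iso _ _ e]

variable {R : Type} [CommRing R] [IsDedekindDomain R]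

theorem qt_eq {M : Type} [AddCommGroup M] [Module R M] [Module.Finite R M]
    {X X' Y Y' : Submodule R M} (hx : X = X') (hy : Y = Y') :
    (EFn R).cl (Y ⧸ X.submoduleOf Y) = cls (R := R) (Y' ⧸ X'.comap Y'.subtype) := by
  subst hx hy
  exact EFn_cl (R := R) (Y ⧸ X.comap Y.subtype)

theorem hr_cl (K : Cx R) (hfin : ∀ n, Module.Finite R (K.M n)) (n : ℕ) :
    (EFn R).cl (Hr K (Tf K) (Of K) n) = cls (R := R) (Hc K.d n) := by
  have := hfin n
  refine qt_eq (M := K.M n) (bd_eq K n) ?_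
  cases n with
  | zero => rfl
  | succ n => exact zcs K n

/-- The Euler class of the homology is the Euler class of the complex. -/
theorem euler_good (K : Cx R) (hfin : ∀ n, Module.Finite R (K.M n)) (N : ℕ)
    (hN : ∀ n, N ≤ n → Subsingleton (K.M n)) {w : K0t R}
    (hw : Good (EFn R) (fun n => Hr K (Tf K) (Of K) n) w) :
    ∃ N', N ≤ N' ∧ ∑ n ∈ Finset.range (N' + 1), (-1 : ℤ) ^ n • (EFn R).cl (K.M n) = w := by
  obtain ⟨-, N1, -, h3⟩ := hw
  refine ⟨max N N1, le_max_left _ _, ?_⟩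
  rw [← h3 (max N N1 + 1) (by omega)]
  have h4 := euler (R := R) (C := K.M) K.d (fun n => LinearMap.ext fun x => K.dd n x) (max N N1)
    (hN _ (by omega))
  calc ∑ n ∈ Finset.range (max N N1 + 1), (-1 : ℤ) ^ n • (EFn R).cl (K.M n)
      = ∑ n ∈ Finset.range (max N N1 + 1), (-1 : ℤ) ^ n • cls (R := R) (K.M n) :=
        Finset.sum_congr rfl fun n _ => by rw [EFn_cl]
    _ = ∑ n ∈ Finset.range (max N N1 + 1), (-1 : ℤ) ^ n • cls (R := R) (Hc K.d n) := h4
    _ = _ := Finset.sum_congr rfl fun n _ => by rw [hr_cl K hfin n]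

end

end Pool.Agent.H37.NF
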