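import Mathlib
import Pool.Agent.H37.NF.Bd
import Pool.Agent.H37.NF.Cmp

/-!
# MP_5c3080_gt, part (3): the resolution attached to a model
-/

set_option autoImplicit false
set_option linter.unusedSectionVars false

namespace Pool.Agent.H37.NF

open Pool.Agent.H59.FS
open Pool.Agent.H4.CU (Cx Hr Fam EulerFn Good)
open Pool.Agent.H37.CG (Tf Of)

noncomputable section

variable {Γ P : Type} [Group Γ] [Group P] [Fintype P] (N : PreCub) [∀ n, MulAction Γ (N.cub n)]
  (R : Type) [CommRing R] (ι : P →* Γ) {r : ℕ} (e : Fin r → Fin r → P → ℤ)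
  (u : Fin r → (N.cub 3 →₀ R))

/-- the cycles in degree 3, zero in the other degrees -/
def up : ∀ n, Fin r → (N.cub n →₀ R)
  | 3 => u
  | _ => 0

theorem up_ne (n : ℕ) (hn : n ≠ 3) : up N R u n = 0 := by
  match n, hn with
  | 0, _ => rfl
  | 1, _ => rfl
  | 2, _ => rfl
  | n + 4, _ => rfl

theorem cmb_zero (n : ℕ) (x : Fin r → (Γ →₀ R)) :
    cmb (Γ := Γ) N R (0 : Fin r → (N.cub n →₀ R)) x = 0 := by
  rw [cmb_apply]
  refine Finset.sum_eq_zero fun j _ => ?_
  rw [Finsupp.sum]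
  refine Finset.sum_eq_zero fun g _ => ?_
  simp

/-- the extra summand -/
def SS (n : ℕ) : Submodule R (Fin r → (Γ →₀ R)) :=
  if n = 4 then LinearMap.ker (mulEL R ι e) else ⊥

theorem mem_SS (n : ℕ) (x : Fin r → (Γ →₀ R)) :
    x ∈ SS (Γ := Γ) R ι e n ↔ (n = 4 → mulEL R ι e x = 0) ∧ (n ≠ 4 → x = 0) := by
  unfold SS
  by_cases h : n = 4
  · simp [h]
  · simp [h]

theorem SS_act (n : ℕ) (g : Γ) (x : Fin r → (Γ →₀ R)) (hx : x ∈ SS (Γ := Γ) R ι e n) :
    freR Γ R r g x ∈ SS (Γ := Γ) R ι e n := by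
  rw [mem_SS] at hx ⊢
  refine ⟨fun h => ?_, fun h => ?_⟩
  · rw [mulEL_act, hx.1 h, map_zero]
  · rw [hx.2 h, map_zero]

/-- the representation on the extra summand -/
def sR (n : ℕ) : Representation R Γ (SS (Γ := Γ) R ι e n) where
  toFun g := (freR Γ R r g).restrict (SS_act R ι e n g)
  map_one' := by
    ext x : 2
    change freR Γ R r 1 x.1 = x.1
    rw [map_one]
    rfl
  map_mul' g h := by
    ext x : 2
    change freR Γ R r (g * h) x.1 = freR Γ R r g (freR Γ R r h x.1)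
    rw [map_mul]
    rfl

/-- the differential -/
def dM (n : ℕ) : ((N.cub (n + 1) →₀ R) × SS (Γ := Γ) R ι e (n + 1)) →ₗ[R]
    ((N.cub n →₀ R) × SS (Γ := Γ) R ι e n) :=
  (N.bd R n ∘ₗ LinearMap.fst R _ _ +
    cmb (Γ := Γ) N R (up N R u n) ∘ₗ (SS (Γ := Γ) R ι e (n + 1)).subtype ∘ₗ
      LinearMap.snd R _ _).prod 0

theorem dM_apply (n : ℕ) (z : (N.cub (n + 1) →₀ R) × SS (Γ := Γ) R ι e (n + 1)) :
    dM N R ι e u n z = (N.bd R n z.1 + cmb (Γ := Γ) N R (up N R u n) z.2.1, 0) := rfl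

variable (hN : N.Act Γ) (hu : ∀ j, N.bd R 2 (u j) = 0)

include hN hu in
theorem bd_up (n : ℕ) (x : Fin r → (Γ →₀ R)) :
    N.bd R n (cmb (Γ := Γ) N R (up N R u (n + 1)) x) = 0 := by
  by_cases h : n = 2
  · subst h
    exact cmb_bd N R hN u hu x
  · rw [up_ne N R u (n + 1) (by omega), cmb_zero, map_zero]

/-- the augmentation -/
def e0 : (N.cub 0 →₀ R) →ₗ[R] R := Finsupp.lift R R (N.cub 0) fun _ => 1

theorem e0_single (c : N.cub 0) (a : R) : e0 N R (Finsupp.single c a) = a := by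
  simp [e0]

theorem e0_eq (z : N.cub 0 →₀ R) : e0 N R z = z.sum fun _ a => a := by
  rw [e0, Finsupp.lift_apply]
  simp

/-- the complex of the model -/
def mod : GC Γ R where
  K :=
    { M := fun n => (N.cub n →₀ R) × SS (Γ := Γ) R ι e n
      d := fun n => dM N R ι e u n
      dd := fun n x => by
        rw [dM_apply, dM_apply]
        simp only [map_add, bd_bd, bd_up N R u hN hu, Submodule.coe_zero, map_zero, add_zero]
        rfl }
  ρ n := (permR Γ R (N.cub n)).prod (sR R ι e n)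
  eq n g x := by
    change dM N R ι e u n (permR Γ R (N.cub (n + 1)) g x.1, sR R ι e (n + 1) g x.2) =
      (permR Γ R (N.cub n) g (dM N R ι e u n x).1, sR R ι e n g (dM N R ι e u n x).2)
    rw [dM_apply, dM_apply]
    simp only [map_zero]
    rw [bd_act N R hN]
    have h1 : ((sR R ι e (n + 1) g x.2 : SS (Γ := Γ) R ι e (n + 1)) : Fin r → (Γ →₀ R)) =
        freR Γ R r g x.2.1 := rfl
    rw [h1, cmb_act, map_add]
  ε := e0 N R ∘ₗ LinearMap.fst R _ _
  ε_eq g x := by
    change e0 N R (permR Γ R (N.cub 0) g x.1) = e0 N R x.1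
    generalize x.1 = y
    induction y using Finsupp.induction_linear with
    | zero => simp
    | add a b ha hb => rw [map_add, map_add, ha, hb, map_add]
    | single c a => rw [permR_single, e0_single, e0_single]
  ε_d x := by
    change e0 N R (N.bd R 0 x.1 + cmb (Γ := Γ) N R (up N R u 0) x.2.1) = 0
    rw [up_ne N R u 0 (by omega), cmb_zero, add_zero]
    generalize x.1 = y
    induction y using Finsupp.induction_linear with
    | zero => simp
    | add a b ha hb => rw [map_add, map_add, ha, hb, add_zero]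
    | single c a =>
      rw [bd_single, map_smul, map_sum]
      have : ∀ i : Fin 1, e0 N R ((-1 : R) ^ (i : ℕ) • (Finsupp.single (N.fa 0 i true c) (1 : R) -
          Finsupp.single (N.fa 0 i false c) 1)) = 0 := by
        intro i
        rw [map_smul, map_sub, e0_single, e0_single, sub_self, smul_zero]
      rw [Finset.sum_eq_zero fun i _ => this i, smul_zero]

theorem mod_ex (he : IsIdem e) (hb : Nonempty (N.cub 0))
    (h1 : ∀ z : N.cub 0 →₀ R, (z.sum fun _ a => a) = 0 → z ∈ LinearMap.range (N.bd R 0))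
    (h2 : ∀ n, n ≠ 2 → ∀ z, N.bd R n z = 0 → z ∈ LinearMap.range (N.bd R (n + 1)))
    (h3 : ∀ z : N.cub 3 →₀ R, N.bd R 2 z = 0 →
      ∃ x : Fin r → (Γ →₀ R), z - N.comb u x ∈ LinearMap.range (N.bd R 3))
    (h4 : ∀ x : Fin r → (Γ →₀ R), N.comb u x ∈ LinearMap.range (N.bd R 3) ↔
      ∀ i, x i = mulE ι e x i) :
    (mod (Γ := Γ) N R ι e u hN hu).Ex := by
  obtain ⟨b⟩ := hb
  refine ⟨⟨(Finsupp.single b 1, 0), e0_single N R b 1⟩, ?_, ?_⟩
  · rintro ⟨c, x⟩ hx
    have hx' : e0 N R c = 0 := hx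
    rw [e0_eq] at hx'
    obtain ⟨y, hy⟩ := h1 c hx'
    have hx0 : x = 0 := Subtype.ext (((mem_SS R ι e 0 x.1).mp x.2).2 (by omega))
    refine ⟨(y, 0), ?_⟩
    change dM N R ι e u 0 (y, 0) = (c, x)
    rw [dM_apply, hx0]
    simp only [Submodule.coe_zero, map_zero, add_zero, hy]
  · rintro n ⟨c, x⟩ hx
    have hx1 : N.bd R n c + cmb (Γ := Γ) N R (up N R u n) x.1 = 0 := congrArg Prod.fst hx
    have hSS := (mem_SS R ι e (n + 1) x.1).mp x.2
    change ∃ y, dM N R ι e u (n + 1) y = (c, x)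
    by_cases hn3 : n = 3
    · subst hn3
      -- top degree
      have hE : mulEL R ι e x.1 = 0 := hSS.1 rfl
      have h5 : N.comb u x.1 ∈ LinearMap.range (N.bd R 3) := by
        refine ⟨-c, ?_⟩
        rw [map_neg, ← cmb_eq]
        exact neg_eq_of_add_eq_zero_right hx1
      have h6 := (h4 x.1).mp h5
      have hx0 : x.1 = 0 := by
        funext i
        rw [h6 i, ← mulEL_eq, hE]
      have hx0' : x = 0 := Subtype.ext hx0
      rw [hx0, map_zero, add_zero] at hx1
      obtain ⟨y, hy⟩ := h2 3 (by omega) c hx1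
      refine ⟨(y, 0), ?_⟩
      rw [dM_apply, hx0']
      simp only [Submodule.coe_zero, map_zero, add_zero, hy]
    · have hx0 : x.1 = 0 := hSS.2 (by omega)
      have hx0' : x = 0 := Subtype.ext hx0
      rw [hx0, map_zero, add_zero] at hx1
      by_cases hn2 : n = 2
      · subst hn2
        obtain ⟨x', hx'⟩ := h3 c hx1
        have h7 : N.comb u (mulEL R ι e x') ∈ LinearMap.range (N.bd R 3) := by
          rw [h4]
          intro i
          rw [← mulEL_eq, mulEL_idem ι e he]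
        obtain ⟨y1, hy1⟩ := hx'
        obtain ⟨y2, hy2⟩ := h7
        have h8 : x' - mulEL R ι e x' ∈ SS (Γ := Γ) R ι e 4 := by
          rw [mem_SS]
          refine ⟨fun _ => ?_, fun h => absurd rfl h⟩
          rw [map_sub, mulEL_idem ι e he, sub_self]
        refine ⟨(y1 + y2, ⟨_, h8⟩), ?_⟩
        rw [dM_apply, hx0']
        refine Prod.ext ?_ rfl
        change N.bd R 3 (y1 + y2) + cmb (Γ := Γ) N R u (x' - mulEL R ι e x') = c
        rw [map_add, hy1, hy2, map_sub, cmb_eq, cmb_eq]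
        abel
      · obtain ⟨y, hy⟩ := h2 n hn2 c hx1
        refine ⟨(y, 0), ?_⟩
        rw [dM_apply, hx0']
        simp only [Submodule.coe_zero, map_zero, add_zero, hy]

theorem gpr_SS (he : IsIdem e) (n : ℕ) :
    GPr (M := SS (Γ := Γ) R ι e n) (sR (Γ := Γ) R ι e n) := by
  by_cases h : n = 4
  · subst h
    have hS : ∀ x : Fin r → (Γ →₀ R), x - mulEL R ι e x ∈ SS (Γ := Γ) R ι e 4 := by
      intro x
      rw [mem_SS]
      refine ⟨fun _ => ?_, fun h => absurd rfl h⟩
      rw [map_sub, mulEL_idem ι e he, sub_self]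
    refine gpr_retract (M' := SS (Γ := Γ) R ι e 4) (freR Γ R r) (sR (Γ := Γ) R ι e 4)
      (Submodule.subtype _)
      (LinearMap.codRestrict _ (LinearMap.id - mulEL R ι e) hS) (fun g x => rfl) ?_ ?_
      (gpr_fre r)
    · intro g x
      apply Subtype.ext
      change freR Γ R r g x - mulEL R ι e (freR Γ R r g x) =
        freR Γ R r g (x - mulEL R ι e x)
      rw [mulEL_act, map_sub]
    · intro x
      apply Subtype.ext
      change x.1 - mulEL R ι e x.1 = x.1
      rw [((mem_SS R ι e 4 x.1).mp x.2).1 rfl, sub_zero]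
  · have : Subsingleton (SS (Γ := Γ) R ι e n) := by
      refine ⟨fun a b => Subtype.ext ?_⟩
      rw [((mem_SS R ι e n a.1).mp a.2).2 h, ((mem_SS R ι e n b.1).mp b.2).2 h]
    exact gpr_subsingleton (M := SS (Γ := Γ) R ι e n) _

theorem mod_pr (he : IsIdem e) (hfin : ∀ (n : ℕ) (c : N.cub n), Finite (MulAction.stabilizer Γ c))
    (hord : ∀ F : Subgroup Γ, Finite F → IsUnit ((Nat.card F : ℕ) : R)) :
    (mod (Γ := Γ) N R ι e u hN hu).Pr := fun n =>
  gpr_prod _ _ (gpr_perm (N.cub n) (hfin n) (fun c => hord _ (hfin n c))) (gpr_SS R ι e he n)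

end

end Pool.Agent.H37.NF
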