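import Mathlib
import Pool.Agent.H37.NF.Eulr
import Pool.Agent.H37.NF.Mod

/-!
# MP_5c3080_gt, part (3): the Euler class of the coinvariants of the complex of a model
-/

set_option autoImplicit false
set_option linter.unusedSectionVars false

namespace Pool.Agent.H37.NF

open Pool.Agent.H59.FS
open Pool.Agent.H4.CU (Cx Hr Fam EulerFn Good)
open Pool.Agent.H37.CG (Tf Of EFn K0t EFn_cl cls cls_exact cls_congr cls_free cl_free cls_map
  cls_subsingleton)

noncomputable section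

variable {Γ P : Type} [Group Γ] [Group P] [Fintype P] (N : PreCub) [∀ n, MulAction Γ (N.cub n)]
  (R : Type) [CommRing R] [IsDedekindDomain R] (ι : P →* Γ) {r : ℕ} (e : Fin r → Fin r → P → ℤ)
  (φ : Γ →* R)

theorem ss_sub (n : ℕ) (h : n ≠ 4) : Subsingleton (SS (Γ := Γ) R ι e n) := by
  refine ⟨fun a b => Subtype.ext ?_⟩
  rw [((mem_SS R ι e n a.1).mp a.2).2 h, ((mem_SS R ι e n b.1).mp b.2).2 h]

/-- the coinvariants of the extra summand in degree 4 -/
theorem ss_four (he : IsIdem e) :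
    Nonempty (TT φ (M := SS (Γ := Γ) R ι e 4) (sR (Γ := Γ) R ι e 4) ≃ₗ[R] LinearMap.ker (eR φ ι e).mulVecLin) := by
  have hS : ∀ x : Fin r → (Γ →₀ R), x - mulEL R ι e x ∈ SS (Γ := Γ) R ι e 4 := by
    intro x
    rw [mem_SS]
    refine ⟨fun _ => ?_, fun h => absurd rfl h⟩
    rw [map_sub, mulEL_idem ι e he, sub_self]
  obtain ⟨f⟩ := tker (M' := SS (Γ := Γ) R ι e 4) φ (freR Γ R r) (sR (Γ := Γ) R ι e 4)
    (mulEL R ι e) (mulEL_act ι e) (Submodule.subtype _) (fun g x => rfl)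
    (LinearMap.codRestrict _ (LinearMap.id - mulEL R ι e) hS)
    (fun g x => by
      apply Subtype.ext
      change freR Γ R r g x - mulEL R ι e (freR Γ R r g x) =
        freR Γ R r g (x - mulEL R ι e x)
      rw [mulEL_act, map_sub])
    (fun x => by
      apply Subtype.ext
      change x.1 - mulEL R ι e x.1 = x.1
      rw [((mem_SS R ι e 4 x.1).mp x.2).1 rfl, sub_zero])
    (fun x => rfl)
    (fun x => ((mem_SS R ι e 4 x.1).mp x.2).1 rfl)
  refine ⟨f ≪≫ₗ LinearEquiv.ofSubmodules (tfre φ r) _ _ ?_⟩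
  ext y
  constructor
  · rintro ⟨z, hz, rfl⟩
    have h1 := tfre_mulEL φ ι e z
    rw [LinearMap.mem_ker]
    have h2 : tmap φ _ _ (mulEL R ι e) (mulEL_act ι e) z = 0 := hz
    rw [h2, map_zero] at h1
    exact h1.symm
  · intro hy
    refine ⟨(tfre φ r).symm y, ?_, (tfre φ r).apply_symm_apply y⟩
    change tmap φ _ _ (mulEL R ι e) (mulEL_act ι e) ((tfre φ r).symm y) = 0
    apply (tfre φ r).injective
    rw [tfre_mulEL, (tfre φ r).apply_symm_apply, map_zero]
    exact hy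

theorem ss_cl (he : IsIdem e) (n : ℕ) :
    Module.Finite R (TT φ (M := SS (Γ := Γ) R ι e n) (sR (Γ := Γ) R ι e n)) ∧
      (EFn R).cl (TT φ (M := SS (Γ := Γ) R ι e n) (sR (Γ := Γ) R ι e n)) =
        if n = 4 then - cls (R := R) (LinearMap.range (eR φ ι e).mulVecLin) else 0 := by
  by_cases h : n = 4
  · subst h
    obtain ⟨f⟩ := ss_four (Γ := Γ) R ι e φ he
    have h1 : Module.Finite R (TT φ (M := SS (Γ := Γ) R ι e 4) (sR (Γ := Γ) R ι e 4)) := Module.Finite.equiv f.symm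
    refine ⟨h1, ?_⟩
    rw [if_pos rfl, (EFn R).iso _ _ f, EFn_cl]
    have h2 := cls_map (R := R) (eR φ ι e).mulVecLin
    rw [cls_free] at h2
    exact eq_neg_of_add_eq_zero_left h2.symm
  · have h0 := ss_sub (Γ := Γ) R ι e n h
    have h1 : Subsingleton (TT φ (M := SS (Γ := Γ) R ι e n) (sR (Γ := Γ) R ι e n)) :=
      (Submodule.mkQ_surjective _).subsingleton
    refine ⟨inferInstance, ?_⟩
    rw [if_neg h]
    have : Module.Free R (TT φ (M := SS (Γ := Γ) R ι e n) (sR (Γ := Γ) R ι e n)) := Module.Free.of_subsingleton R _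
    exact cl_free _

theorem prod_cl {M M' : Type} [AddCommGroup M] [Module R M] [AddCommGroup M'] [Module R M']
    (ρ : Representation R Γ M) (ρ' : Representation R Γ M') (h1 : Module.Finite R (TT φ ρ))
    (h2 : Module.Finite R (TT φ ρ')) :
    Module.Finite R (TT φ (ρ.prod ρ')) ∧
      (EFn R).cl (TT φ (ρ.prod ρ')) = (EFn R).cl (TT φ ρ') + (EFn R).cl (TT φ ρ) := by
  have h3 : Module.Finite R (TT φ (ρ.prod ρ')) := by
    refine Module.Finite.of_surjective
      ((jf φ ρ ρ').comp (LinearMap.fst R _ _) + (js φ ρ ρ').comp (LinearMap.snd R _ _)) ?_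
    intro z
    exact ⟨(pf φ ρ ρ' z, ps φ ρ ρ' z), js_ps φ ρ ρ' z⟩
  refine ⟨h3, ?_⟩
  obtain ⟨i1, i2, i3⟩ := tprod_exact φ ρ ρ'
  rw [EFn_cl, EFn_cl, EFn_cl]
  exact cls_exact (R := R) _ _ i1 i2 i3

variable (u : Fin r → (N.cub 3 →₀ R)) (hN : N.Act Γ) (hu : ∀ j, N.bd R 2 (u j) = 0)

section loc

attribute [local irreducible] sR permR SS freR mulEL tmap CoI

/-- THE EULER CLASS. -/
theorem mod_w (he : IsIdem e)
    (hfin : ∀ n : ℕ, ∃ s : Finset (N.cub n), ∀ c : N.cub n, ∃ g : Γ, ∃ d ∈ s, c = g • d)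
    (hst : ∀ (n : ℕ) (x : N.cub n), (∀ g ∈ MulAction.stabilizer Γ x, g = 1) ∨
      ∃ g ∈ MulAction.stabilizer Γ x, IsUnit (φ g - 1))
    (hdim : ∀ n, 4 < n → IsEmpty (N.cub n)) {w : K0t R}
    (hw : Good (EFn R) (fun n => Hr ((mod (Γ := Γ) N R ι e u hN hu).T φ)
      (Tf ((mod (Γ := Γ) N R ι e u hN hu).T φ)) (Of ((mod (Γ := Γ) N R ι e u hN hu).T φ)) n) w) :
    w = - cls (R := R) (LinearMap.range (eR φ ι e).mulVecLin) := by
  have h1 : ∀ n, Module.Finite R (TT φ (permR Γ R (N.cub n))) ∧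
      Module.Free R (TT φ (permR Γ R (N.cub n))) := by
    intro n
    obtain ⟨s, hs⟩ := hfin n
    exact coinv_perm φ (N.cub n) s hs (hst n)
  have h2 := ss_cl (Γ := Γ) R ι e φ he
  have h3 : ∀ n, Module.Finite R (((mod (Γ := Γ) N R ι e u hN hu).T φ).M n) ∧
      (EFn R).cl (((mod (Γ := Γ) N R ι e u hN hu).T φ).M n) =
        if n = 4 then - cls (R := R) (LinearMap.range (eR φ ι e).mulVecLin) else 0 := by
    intro n
    obtain ⟨i1, i2⟩ := h1 n
    obtain ⟨i3, i4⟩ := h2 n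
    have i8 := @prod_cl Γ _ R _ _ φ (N.cub n →₀ R) (SS (Γ := Γ) R ι e n) _ _ _ _
      (permR Γ R (N.cub n)) (sR (Γ := Γ) R ι e n) i1
    have i9 := i8 i3
    obtain ⟨i5, i6⟩ := i9
    have i7 : (EFn R).cl (TT φ (permR Γ R (N.cub n))) = 0 := cl_free _
    rw [i4, i7, add_zero] at i6
    exact ⟨i5, i6⟩
  have h4 : ∀ n, 5 ≤ n → Subsingleton (((mod (Γ := Γ) N R ι e u hN hu).T φ).M n) := by
    intro n hn
    have i1 := hdim n (by omega)
    have i2 := ss_sub (Γ := Γ) R ι e n (by omega)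
    have i3 : Subsingleton ((N.cub n →₀ R) × SS (Γ := Γ) R ι e n) := inferInstance
    have i4 : Subsingleton ((mod (Γ := Γ) N R ι e u hN hu).K.M n) := i3
    exact (Submodule.mkQ_surjective (CoI φ
      ((mod (Γ := Γ) N R ι e u hN hu).ρ n))).subsingleton
  obtain ⟨N', hN', h5⟩ := euler_good ((mod (Γ := Γ) N R ι e u hN hu).T φ) (fun n => (h3 n).1) 5 h4
    hw
  rw [← h5, Finset.sum_eq_single 4]
  · rw [(h3 4).2, if_pos rfl]
    norm_num
  · intro k _ hk
    rw [(h3 k).2, if_neg hk, smul_zero]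
  · intro hmem
    exact absurd (Finset.mem_range.mpr (by omega)) hmem

end loc

end

end Pool.Agent.H37.NF
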