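import Mathlib
import Pool.Agent.H37.NF.Perm
import Pool.Agent.H4.CU.DD
import Pool.Agent.H4.CU.HTP

/-!
# MP_5c3080_gt, part (3): the singular cubical chains of a contractible space with an action
with finite stabilizers are a resolution with the lifting property
-/

set_option autoImplicit false

namespace Pool.Agent.H37.NF

open Pool.Agent.H4.CU

noncomputable section

variable (Γ R X : Type) [Group Γ] [CommRing R] [TopologicalSpace X] [MulAction Γ X]
  [ContinuousConstSMul Γ X]

/-- the action on the chains -/
def singR (n : ℕ) : Representation R Γ (Ch R X n) where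
  toFun g := mapC R n (act g)
  map_one' := by
    have : (act (1 : Γ) : C(X, X)) = ContinuousMap.id X := by
      ext x
      exact one_smul Γ x
    rw [this, mapC_id]
    rfl
  map_mul' g h := by
    have : (act (g * h) : C(X, X)) = (act g).comp (act h) := by
      ext x
      exact mul_smul g h x
    rw [this, mapC_comp]
    rfl

theorem not_deg_zero (σ : Cb X 0) : ¬ Deg σ := fun ⟨i, _⟩ => i.elim0

/-- the augmentation -/
def aug : Ch R X 0 →ₗ[R] R := liftC (fun _ => (1 : R)) fun σ h => absurd h (not_deg_zero X σ)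

theorem aug_gC (σ : Cb X 0) : aug R X (gC R σ) = 1 := liftC_gC _ _ _

/-- the complex of the singular cubical chains -/
def sing : GC Γ R where
  K := CC R X
  ρ := singR Γ R X
  eq n g x := LinearMap.congr_fun (dC_mapC (R := R) (n := n) (act g : C(X, X))) x
  ε := aug R X
  ε_eq g x := by
    have h1 : aug R X ∘ₗ mapC R 0 (act g) = aug R X :=
      ch_ext fun σ => by rw [LinearMap.comp_apply, mapC_gC, aug_gC, aug_gC]
    exact LinearMap.congr_fun h1 x
  ε_d x := by
    have h1 : aug R X ∘ₗ dC R X 0 = 0 :=
      ch_ext fun σ => by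
        rw [LinearMap.comp_apply, dC_gC, map_sum, LinearMap.zero_apply]
        refine Finset.sum_eq_zero fun i _ => ?_
        rw [map_smul, map_sub, aug_gC, aug_gC, sub_self, smul_zero]
    exact LinearMap.congr_fun h1 x

theorem sing_T (φ : Γ →* R) : (sing Γ R X).T φ = CK φ X := rfl

theorem sing_ex [ContractibleSpace X] : (sing Γ R X).Ex := by
  obtain ⟨x0, ⟨H⟩⟩ := id_nullhomotopic X
  -- `H` is a homotopy from the identity to the constant map
  let h : C(J × X, X) := H.toContinuousMap
  have hs0 : slice h 0 = ContinuousMap.id X := by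
    ext x
    exact H.apply_zero x
  have hs1 : slice h 1 = ContinuousMap.const X x0 := by
    ext x
    exact H.apply_one x
  let σ0 : Cb X 0 := ContinuousMap.const _ x0
  refine ⟨⟨gC R σ0, aug_gC R X σ0⟩, ?_, ?_⟩
  · intro x hx
    refine ⟨PC R 0 h x, ?_⟩
    have h1 := dC_PC_zero (R := R) h x
    rw [hs0, hs1, mapC_id] at h1
    have h2 : mapC R 0 (ContinuousMap.const X x0) x = aug R X x • gC R σ0 := by
      have h3 : mapC R 0 (ContinuousMap.const X x0) =
          (LinearMap.toSpanSingleton R (Ch R X 0) (gC R σ0)) ∘ₗ aug R X :=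
        ch_ext fun σ => by
          rw [mapC_gC, LinearMap.comp_apply, aug_gC, LinearMap.toSpanSingleton_apply, one_smul]
          rfl
      exact LinearMap.congr_fun h3 x
    have hx' : aug R X x = 0 := hx
    rw [h2, hx', zero_smul, sub_zero] at h1
    exact h1
  · intro n x hx
    refine ⟨PC R (n + 1) h x, ?_⟩
    have h1 := dC_PC (R := R) h x
    have hx' : dC R X n x = 0 := hx
    rw [hs0, hs1, mapC_id, hx', map_zero, add_zero] at h1
    have h2 : mapC R (n + 1) (ContinuousMap.const X x0) x = 0 := by
      have h3 : mapC R (n + 1) (ContinuousMap.const X x0) = 0 :=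
        ch_ext fun σ => by
          rw [mapC_gC, LinearMap.zero_apply]
          exact gC_deg R ⟨0, fun _ _ => rfl⟩
      exact LinearMap.congr_fun h3 x
    rw [h2, sub_zero] at h1
    exact h1

/-- the action on the cubes -/
instance cbAct (n : ℕ) : MulAction Γ (Cb X n) where
  smul g σ := (act g : C(X, X)).comp σ
  one_smul σ := by
    ext x
    exact one_smul Γ (σ x)
  mul_smul g h σ := by
    ext x
    exact mul_smul g h (σ x)

theorem cb_smul {n : ℕ} (g : Γ) (σ : Cb X n) : g • σ = (act g : C(X, X)).comp σ := rfl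

theorem deg_smul {n : ℕ} (g : Γ) (σ : Cb X n) : Deg (g • σ) ↔ Deg σ := by
  constructor
  · intro h
    have h1 := h.comp (act g⁻¹ : C(X, X))
    have h2 : (act g⁻¹ : C(X, X)).comp (g • σ) = σ := by
      change g⁻¹ • (g • σ) = σ
      exact inv_smul_smul g σ
    rwa [h2] at h1
  · intro h
    exact h.comp (act g : C(X, X))

theorem sing_pr (hst : ∀ x : X, Finite (MulAction.stabilizer Γ x))
    (hord : ∀ F : Subgroup Γ, Finite F → IsUnit ((Nat.card F : ℕ) : R)) : (sing Γ R X).Pr := by
  classical
  intro n
  have hfin : ∀ σ : Cb X n, Finite (MulAction.stabilizer Γ σ) := by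
    intro σ
    have h1 : MulAction.stabilizer Γ σ ≤ MulAction.stabilizer Γ (σ fun _ => 0) := by
      intro g hg
      rw [MulAction.mem_stabilizer_iff] at hg ⊢
      exact congrArg (fun τ : Cb X n => τ fun _ => 0) hg
    have := hst (σ fun _ => 0)
    exact Finite.of_injective (Subgroup.inclusion h1) (Subgroup.inclusion_injective h1)
  have h1 := gpr_perm (Γ := Γ) (R := R) (Cb X n) hfin (fun σ => hord _ (hfin σ))
  let q : (Cb X n →₀ R) →ₗ[R] Ch R X n := Submodule.mkQ _
  let i : Ch R X n →ₗ[R] (Cb X n →₀ R) :=
    liftC (fun σ => if Deg σ then 0 else Finsupp.single σ 1) (fun σ h => if_pos h)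
  refine gpr_retract (permR Γ R (Cb X n)) (singR Γ R X n) i q ?_ ?_ ?_ h1
  · intro g x
    have h2 : i ∘ₗ mapC R n (act g) = permR Γ R (Cb X n) g ∘ₗ i :=
      ch_ext fun σ => by
        rw [LinearMap.comp_apply, LinearMap.comp_apply, mapC_gC]
        simp only [i]
        rw [liftC_gC, liftC_gC, ← cb_smul]
        by_cases hσ : Deg σ
        · rw [if_pos hσ, if_pos ((deg_smul Γ X g σ).mpr hσ), map_zero]
        · rw [if_neg hσ, if_neg (fun h => hσ ((deg_smul Γ X g σ).mp h)), permR_single]
          rfl
    exact LinearMap.congr_fun h2 x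
  · intro g x
    have h2 : q ∘ₗ permR Γ R (Cb X n) g = mapC R n (act g) ∘ₗ q := by
      refine Finsupp.lhom_ext' fun σ => LinearMap.ext_ring ?_
      rw [LinearMap.comp_apply, LinearMap.comp_apply, LinearMap.comp_apply, LinearMap.comp_apply,
        Finsupp.lsingle_apply, permR_single]
      change gC R (g • σ) = mapC R n (act g) (gC R σ)
      rw [mapC_gC]
      rfl
    exact LinearMap.congr_fun h2 x
  · intro x
    have h2 : q ∘ₗ i = LinearMap.id :=
      ch_ext fun σ => by
        rw [LinearMap.comp_apply, LinearMap.id_apply]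
        simp only [i]
        rw [liftC_gC]
        by_cases hσ : Deg σ
        · rw [if_pos hσ, map_zero, gC_deg R hσ]
        · rw [if_neg hσ]
          rfl
    exact LinearMap.congr_fun h2 x

end

end Pool.Agent.H37.NF
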