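import Mathlib
import Pool.Agent.H37.NF.Sing
import Pool.Agent.H37.NF.Cls
import Pool.Agent.H37.CG.QR
import Pool.Agent.H4.CU.CW5
import Pool.Agent.H59.FS.Defs

/-!
# MP_5c3080_gt, part (3): a model with a class that is not stably free is not of type `F*`

`not_typeF_gen`: general form. `e23`, `not_typeF`: the case `P = Z/23` of the problem.
-/

set_option autoImplicit false
set_option linter.unusedSectionVars false

namespace Pool.Agent.H37.NF

open Pool.Agent.H59.FS
open Pool.Agent.H4.CU (Cx Hr Fam EulerFn Good CK good_cw)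
open Pool.Agent.H37.CG (Tf Of EFn K0t EFn_cl cls cls_exact cls_congr cls_free cl_free cls_map
  cls_subsingleton R23 zR QR eM eM_idem eM_map phi phi_gen cls_QR_ne isUnit23
  isUnit_sub_one zR_pow)

noncomputable section

/-- GENERAL FORM. -/
theorem not_typeF_gen {P : Type} [Group P] [Fintype P] {r : ℕ} {e : Fin r → Fin r → P → ℤ}
    (M : Model P r e) (he : IsIdem e) (R : Type) [CommRing R] [IsDedekindDomain R] (χ : P →* R)
    (hP : IsUnit ((Nat.card P : ℕ) : R)) (hχ : ∀ p : P, p ≠ 1 → IsUnit (χ p - 1))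
    (hcls : cls (R := R) (LinearMap.range (Matrix.mulVecLin
      (fun i j => ∑ p : P, ((e j i p : ℤ) : R) * χ p : Matrix (Fin r) (Fin r) R))) ≠ 0) :
    ¬ TypeF M.G := by
  classical
  rintro ⟨X, iT, iT2, iCW, iMA, hcontr, hprop, hcoc, hcell, hrig⟩
  have iCC : ContinuousConstSMul M.G X := ⟨hprop.1⟩
  let φ : M.G →* R := χ.comp M.π
  have hφι : ∀ p, φ (M.ι p) = χ p := fun p => by
    change χ (M.π (M.ι p)) = χ p
    rw [M.π_ι]
  -- torsion elements
  have htor : ∀ g : M.G, IsOfFinOrder g → g ≠ 1 → M.π g ≠ 1 := by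
    intro g hg hg1 hπ
    exact hg1 (M.tf g hπ (orderOf g) hg.orderOf_pos (pow_orderOf_eq_one g))
  have hord : ∀ F : Subgroup M.G, Finite F → IsUnit ((Nat.card F : ℕ) : R) := by
    intro F hF
    have hinj : Function.Injective (M.π.comp F.subtype) := by
      rw [injective_iff_map_eq_one]
      intro f hf
      by_contra hne
      have h1 : (f : M.G) ≠ 1 := fun h => hne (Subtype.ext h)
      have h2 : IsOfFinOrder (f : M.G) := by
        have h3 : IsOfFinOrder f := isOfFinOrder_of_finite f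
        exact (Submonoid.isOfFinOrder_coe (H := F.toSubmonoid) (x := f)).mpr h3
      exact htor _ h2 h1 hf
    have h1 : Nat.card F ∣ Nat.card P := Subgroup.card_dvd_of_injective _ hinj
    exact isUnit_of_dvd_unit (Nat.cast_dvd_cast h1) hP
  have hφF : ∀ F : Subgroup M.G, Finite F → F ≠ ⊥ → ∃ f ∈ F, IsUnit (φ f - 1) := by
    intro F hF hne
    obtain ⟨f, hf, hf1⟩ := (Subgroup.bot_or_exists_ne_one F).resolve_left hne
    refine ⟨f, hf, hχ _ (htor f ?_ hf1)⟩
    have h3 : IsOfFinOrder (⟨f, hf⟩ : F) := isOfFinOrder_of_finite _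
    exact (Submonoid.isOfFinOrder_coe (H := F.toSubmonoid) (x := ⟨f, hf⟩)).mpr h3
  -- the stabilizers of the points of `X`
  have hst : ∀ x : X, Finite (MulAction.stabilizer M.G x) := by
    intro x
    have h1 := hprop.2 {x} isCompact_singleton
    have h2 : ((MulAction.stabilizer M.G x : Subgroup M.G) : Set M.G) ⊆
        {g : M.G | ((g • ·) '' {x} ∩ {x}).Nonempty} := by
      intro g hg
      exact ⟨x, ⟨x, rfl, MulAction.mem_stabilizer_iff.mp hg⟩, rfl⟩
    exact (h1.subset h2).to_subtype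
  -- the two resolutions
  obtain ⟨k1, k2, u, hu, k3, k4⟩ := M.hom R
  have hEx := mod_ex (Γ := M.G) M.N R M.ι e u M.isAct hu he ⟨M.b⟩ k1 k2 k3 k4
  have hPr := mod_pr (Γ := M.G) M.N R M.ι e u M.isAct hu he M.fin.1 hord
  have hg0 : Good (EFn R) (fun k => Hr (CK φ X) ⊤ ⊥ k) 0 :=
    good_cw φ (EFn R) hprop hcoc hcell hrig (fun F hF hne => by
      obtain ⟨f, hf, hf1⟩ := hφF F hF hne
      refine ⟨f, hf, ?_⟩
      rw [← neg_sub]
      exact hf1.neg)
  have hg1 : Good (EFn R) (fun n => Hr ((sing M.G R X).T φ) (Tf ((sing M.G R X).T φ))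
      (Of ((sing M.G R X).T φ)) n) 0 := hg0
  have hg2 := good_iso (EFn R) _ _ (comparison (sing M.G R X)
    (mod (Γ := M.G) M.N R M.ι e u M.isAct hu) φ (sing_ex M.G R X) (sing_pr M.G R X hst hord) hEx
    hPr) hg1
  have hw := mod_w (Γ := M.G) M.N R M.ι e φ u M.isAct hu he M.fin.2 (fun n x => by
    by_cases h : MulAction.stabilizer M.G x = ⊥
    · left
      intro g hg
      rw [h] at hg
      exact Subgroup.mem_bot.mp hg
    · right
      exact hφF _ (M.fin.1 n x) h) M.dim hg2
  apply hcls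
  have h5 : (eR φ M.ι e) = (fun i j => ∑ p : P, ((e j i p : ℤ) : R) * χ p :
      Matrix (Fin r) (Fin r) R) := by
    funext i j
    unfold eR
    refine Finset.sum_congr rfl fun p _ => ?_
    rw [hφι]
  rw [h5] at hw
  exact neg_eq_zero.mp hw.symm

/-! the case of the problem -/

/-- the generator of the group ring -/
def g23 : MonoidAlgebra ℤ (Multiplicative (ZMod 23)) :=
  MonoidAlgebra.of ℤ _ (Multiplicative.ofAdd (1 : ZMod 23))

theorem g23_pow : g23 ^ 23 = 1 := by
  rw [g23, ← map_pow, ← ofAdd_nsmul]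
  have : (23 : ℕ) • (1 : ZMod 23) = 0 := by decide
  rw [this, ofAdd_zero, map_one]

/-- the idempotent matrix (for row vectors) -/
def e23 : Fin 2 → Fin 2 → Multiplicative (ZMod 23) → ℤ := fun i j p => (eM g23 j i).coeff p

theorem mul_coef {G : Type} [Group G] [Fintype G] (x y : MonoidAlgebra ℤ G) (p : G) :
    (x * y).coeff p = ∑ q : G, x.coeff q * y.coeff (q⁻¹ * p) := by
  rw [MonoidAlgebra.coeff_mul_apply_left]
  exact Finsupp.sum_fintype _ _ (fun q => by simp)

theorem e23_idem : IsIdem e23 := by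
  intro i j p
  have h1 := eM_idem g23 g23_pow
  have h2 := congrFun (congrFun h1 j) i
  rw [Matrix.mul_apply] at h2
  have h3 := congrArg (fun z : MonoidAlgebra ℤ (Multiplicative (ZMod 23)) => z.coeff p) h2
  simp only [MonoidAlgebra.coeff_sum, Finsupp.finsetSum_apply] at h3
  change _ = e23 i j p at h3
  rw [← h3]
  refine Finset.sum_congr rfl fun l _ => ?_
  rw [mul_comm, mul_coef]
  rfl

/-- the character -/
def chi23 : Multiplicative (ZMod 23) →* R23 where
  toFun x := zR ^ (Multiplicative.toAdd x).val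
  map_one' := by simp
  map_mul' := by
    intro x y
    rw [toAdd_mul, ZMod.val_add, ← pow_eq_pow_mod _ zR_pow, pow_add]

theorem phi_eq (x : MonoidAlgebra ℤ (Multiplicative (ZMod 23))) :
    phi x = ∑ p, ((x.coeff p : ℤ) : R23) * chi23 p := by
  have h1 : phi x = x.coeff.sum fun a b => algebraMap ℤ R23 b * chi23 a := by
    exact MonoidAlgebra.lift_apply' (R := ℤ) (A := R23) chi23 x
  rw [h1, Finsupp.sum_fintype _ _ (fun q => by simp)]
  refine Finset.sum_congr rfl fun p _ => ?_
  rw [eq_intCast]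

theorem phi_g23 : phi g23 = zR := phi_gen

/-- THEOREM (3). -/
theorem not_typeF (M : Model (Multiplicative (ZMod 23)) 2 e23) : ¬ TypeF M.G := by
  refine not_typeF_gen M e23_idem R23 chi23 ?_ ?_ ?_
  · have : Nat.card (Multiplicative (ZMod 23)) = 23 := by
      rw [Nat.card_eq_fintype_card, Fintype.card_multiplicative, ZMod.card]
    rw [this]
    exact isUnit23
  · intro p hp
    have hv : (Multiplicative.toAdd p).val ≠ 0 := by
      intro h
      apply hp
      rw [ZMod.val_eq_zero] at h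
      exact h
    have hlt : (Multiplicative.toAdd p).val < 23 := ZMod.val_lt _
    -- `zeta ^ v` has a power equal to `zeta`
    have hcop : Nat.Coprime (Multiplicative.toAdd p).val 23 :=
      ((Nat.Prime.coprime_iff_not_dvd (by norm_num : Nat.Prime 23)).mpr fun h => by
        have := Nat.le_of_dvd (Nat.pos_of_ne_zero hv) h
        omega).symm
    obtain ⟨m, hm⟩ := Nat.exists_mul_mod_eq_one_of_coprime hcop (by norm_num)
    have h1 : zR = (chi23 p) ^ m := by
      change zR = (zR ^ (Multiplicative.toAdd p).val) ^ m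
      rw [← pow_mul, pow_eq_pow_mod _ zR_pow, hm.2, pow_one]
    have h2 : (chi23 p - 1) ∣ (zR - 1) := by
      rw [h1]
      exact sub_one_dvd_pow_sub_one _ _
    exact isUnit_of_dvd_unit h2 isUnit_sub_one
  · have h1 : (fun i j => ∑ p : Multiplicative (ZMod 23), ((e23 j i p : ℤ) : R23) * chi23 p :
        Matrix (Fin 2) (Fin 2) R23) = eM zR := by
      funext i j
      change ∑ p, (((eM g23 i j).coeff p : ℤ) : R23) * chi23 p = _
      rw [← phi_eq, ← phi_g23, ← eM_map]
      rfl
    rw [h1]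
    exact cls_QR_ne

end

end Pool.Agent.H37.NF
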